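import Pool.Agent.N407.FS.Occ

/-!
# Project FS: the count law for all words of all lengths (helper407)
-/

set_option autoImplicit false

namespace Pool.Agent.N407.FS

open Finset Real MeasureTheory Filter Topology Pool.Agent.Y933.KD Pool.Agent.N639.FS

lemma integrable_occ_pow (P : Measure ℝ) [IsProbabilityMeasure P] (b w N c k : ℕ) (m : ℝ) :
    Integrable (fun x => (occ b w N c x - m) ^ k) P := by
  refine Integrable.of_bound (C := ((N : ℝ) + |m|) ^ k)
    (((measurable_occ b w N c).sub_const m).pow_const k).aestronglyMeasurable ?_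
  refine Eventually.of_forall fun x => ?_
  rw [Real.norm_eq_abs, abs_pow]
  refine pow_le_pow_left₀ (abs_nonneg _) ?_ _
  calc |occ b w N c x - m| ≤ |occ b w N c x| + |m| := abs_sub _ _
    _ ≤ N + |m| := by
        rw [abs_of_nonneg (occ_nonneg _ _ _ _ _)]
        linarith [occ_le b w N c x]

/-- moment bound under `P` -/
lemma mom_P (P : Measure ℝ) (h2 : St_L2) {b w c s J : ℕ} (hb : 1 ≤ b) (hw : 1 ≤ w)
    (hc : c < b ^ w)
    (hTR : |∫ x, ∑ n ∈ Fintype.piFinset (fun _ : Fin (2 * s) => range (w * J)),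
        (∏ i, ((if wd b w (n i) x = c then (1 : ℝ) else 0) - 1 / (b : ℝ) ^ w)) ∂P -
      ∫ x, ∑ n ∈ Fintype.piFinset (fun _ : Fin (2 * s) => range (w * J)),
        (∏ i, ((if wd b w (n i) x = c then (1 : ℝ) else 0) - 1 / (b : ℝ) ^ w)) ∂Leb| ≤ 1) :
    ∫ x, (occ b w (w * J) c x - (w * J : ℕ) / (b : ℝ) ^ w) ^ (2 * s) ∂P ≤
      6 * (2 * s).factorial * (w : ℝ) ^ (2 * s) * (1 + J / (b : ℝ) ^ w) ^ s + 1 := by
  have h3 := h2 b w c s J hb hw hc
  simp only [occ_pow] at h3 ⊢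
  have := (abs_le.1 hTR).2
  linarith

lemma event_P (P : Measure ℝ) [IsProbabilityMeasure P] {b w c s J : ℕ} (hb : 1 ≤ b) (hw : 1 ≤ w)
    {E T : ℝ} (hT : 0 < T) (hE : 0 ≤ E)
    (hmom : ∫ x, (occ b w (w * J) c x - (w * J : ℕ) / (b : ℝ) ^ w) ^ (2 * s) ∂P ≤
      E * (1 + J / (b : ℝ) ^ w) ^ s + 1) :
    P.real {x | T * (1 + √((w * J : ℕ) / (b : ℝ) ^ w)) ≤
      |occ b w (w * J) c x - (w * J : ℕ) / (b : ℝ) ^ w|} ≤ (E + 1) / T ^ (2 * s) := by
  have hb' : (0 : ℝ) < b := by exact_mod_cast hb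
  have hbw : (0 : ℝ) < (b : ℝ) ^ w := by positivity
  set m : ℝ := (w * J : ℕ) / (b : ℝ) ^ w with hm
  have hm0 : 0 ≤ m := by positivity
  have hJm : (J : ℝ) / (b : ℝ) ^ w ≤ m := by
    rw [hm]
    gcongr
    exact Nat.le_mul_of_pos_left J hw
  have hs0 : 0 ≤ √m := Real.sqrt_nonneg _
  have hmk := mul_meas_ge_le_integral_of_nonneg (μ := P)
    (f := fun x => (occ b w (w * J) c x - m) ^ (2 * s))
    (Eventually.of_forall fun x => (even_two_mul s).pow_nonneg _)
    (integrable_occ_pow P b w (w * J) c (2 * s) m) ((T * (1 + √m)) ^ (2 * s))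
  have hsub : {x | T * (1 + √m) ≤ |occ b w (w * J) c x - m|} ⊆
      {x | (T * (1 + √m)) ^ (2 * s) ≤ (occ b w (w * J) c x - m) ^ (2 * s)} := by
    intro x hx
    simp only [Set.mem_ofPred_eq] at hx ⊢
    rw [← (even_two_mul s).pow_abs (occ b w (w * J) c x - m)]
    exact pow_le_pow_left₀ (by positivity) hx _
  have h1 : P.real {x | T * (1 + √m) ≤ |occ b w (w * J) c x - m|} ≤
      P.real {x | (T * (1 + √m)) ^ (2 * s) ≤ (occ b w (w * J) c x - m) ^ (2 * s)} :=
    measureReal_mono hsub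
  have h2 : (1 + (J : ℝ) / (b : ℝ) ^ w) ^ s ≤ (1 + √m) ^ (2 * s) := by
    rw [pow_mul]
    refine pow_le_pow_left₀ (by positivity) ?_ _
    have := Real.sq_sqrt hm0
    nlinarith
  have h3 : (1 : ℝ) ≤ (1 + √m) ^ (2 * s) := one_le_pow₀ (by linarith)
  have h4 : (T * (1 + √m)) ^ (2 * s) *
      P.real {x | T * (1 + √m) ≤ |occ b w (w * J) c x - m|} ≤ (E + 1) * (1 + √m) ^ (2 * s) := by
    calc _ ≤ (T * (1 + √m)) ^ (2 * s) *
          P.real {x | (T * (1 + √m)) ^ (2 * s) ≤ (occ b w (w * J) c x - m) ^ (2 * s)} := by gcongr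
      _ ≤ E * (1 + J / (b : ℝ) ^ w) ^ s + 1 := hmk.trans hmom
      _ ≤ E * (1 + √m) ^ (2 * s) + (1 + √m) ^ (2 * s) := by gcongr
      _ = _ := by ring
  rw [le_div_iff₀ (by positivity)]
  have h5 : (0 : ℝ) < (1 + √m) ^ (2 * s) := by positivity
  rw [mul_pow] at h4
  have h6 : (P.real {x | T * (1 + √m) ≤ |occ b w (w * J) c x - m|} * T ^ (2 * s)) *
      (1 + √m) ^ (2 * s) ≤ (E + 1) * (1 + √m) ^ (2 * s) := by nlinarith
  exact le_of_mul_le_mul_right h6 h5

lemma ev_L (B : ℕ) (A η : ℝ) (hη : 0 < η) (s : ℕ) : ∀ᶠ L : ℝ in atTop,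
    1 ≤ L ∧ (B : ℝ) * (A * L + 1) ≤ L ^ 2 ∧ (B : ℝ) + 1 ≤ L ∧ 8 ≤ L ∧ A * L + 1 ≤ L ^ 2 ∧
    5 ≤ L ^ (η / 2) ∧ ∀ w : ℕ, (2 : ℝ) ^ w ≤ L ^ 2 →
      6 * (2 * s).factorial * (w : ℝ) ^ (2 * s) + 2 ≤ L ∧ (w : ℝ) ≤ L ^ (η / 2) := by
  have e1 : ∀ᶠ L : ℝ in atTop, 5 ≤ L ^ (η / 2) :=
    (tendsto_rpow_atTop (by linarith : 0 < η / 2)).eventually_ge_atTop 5
  have e2 : ∀ᶠ L : ℝ in atTop, ‖log L‖ ≤ (1 / 4) * ‖L ^ (η / 2)‖ :=
    (isLittleO_log_rpow_atTop (by linarith : 0 < η / 2)).bound (by norm_num)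
  have e3 : ∀ᶠ L : ℝ in atTop, ‖log L ^ (2 * s)‖ ≤
      (1 / (2 * (6 * (2 * s).factorial * 4 ^ (2 * s)))) * ‖id L‖ :=
    (isLittleO_pow_log_id_atTop (n := 2 * s)).bound (by positivity)
  filter_upwards [e1, e2, e3, eventually_ge_atTop (8 : ℝ), eventually_ge_atTop ((B : ℝ) + 1),
    eventually_ge_atTop ((B + 1) * (|A| + 1) : ℝ)] with L h1 h2 h3 h4 h5 h6
  have hA := le_abs_self A
  have hA0 := abs_nonneg A
  have hB0 : (0 : ℝ) ≤ B := Nat.cast_nonneg B
  have hAL : A * L + 1 ≤ (|A| + 1) * L := by nlinarith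
  refine ⟨by linarith, ?_, h5, h4, ?_, h1, fun w hw => ?_⟩
  · calc (B : ℝ) * (A * L + 1) ≤ B * ((|A| + 1) * L) := by gcongr
      _ = (B * (|A| + 1)) * L := by ring
      _ ≤ L * L := by
          gcongr
          nlinarith
      _ = L ^ 2 := by ring
  · calc A * L + 1 ≤ (|A| + 1) * L := hAL
      _ ≤ L * L := by
          gcongr
          nlinarith
      _ = L ^ 2 := by ring
  · have hL0 : 0 < L := by linarith
    have hlogL : 0 ≤ log L := Real.log_nonneg (by linarith)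
    have hw1 : (w : ℝ) ≤ 4 * log L := by
      have := Real.log_le_log (by positivity) hw
      rw [Real.log_pow, Real.log_pow] at this
      push_cast at this
      have h7 := Real.log_two_gt_d9
      have hw0 : (0 : ℝ) ≤ w := Nat.cast_nonneg w
      nlinarith
    constructor
    · rw [Real.norm_eq_abs, abs_of_nonneg (by positivity), id, Real.norm_eq_abs,
        abs_of_pos hL0] at h3
      have h8 : (w : ℝ) ^ (2 * s) ≤ (4 * log L) ^ (2 * s) :=
        pow_le_pow_left₀ (Nat.cast_nonneg w) hw1 _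
      rw [mul_pow] at h8
      have hF : (0 : ℝ) < 6 * (2 * s).factorial := by positivity
      have h9 : 6 * (2 * s).factorial * (4 ^ (2 * s) * log L ^ (2 * s)) ≤ L / 2 := by
        calc 6 * (2 * s).factorial * (4 ^ (2 * s) * log L ^ (2 * s))
            = (6 * (2 * s).factorial * 4 ^ (2 * s)) * log L ^ (2 * s) := by ring
          _ ≤ (6 * (2 * s).factorial * 4 ^ (2 * s)) *
            ((1 / (2 * (6 * (2 * s).factorial * 4 ^ (2 * s)))) * L) := by gcongr
          _ = L / 2 := by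
              have h4' : (0 : ℝ) < 6 * (2 * s).factorial * 4 ^ (2 * s) := by positivity
              field_simp
      calc 6 * (2 * s).factorial * (w : ℝ) ^ (2 * s) + 2
          ≤ 6 * (2 * s).factorial * (4 ^ (2 * s) * log L ^ (2 * s)) + 2 := by gcongr
        _ ≤ L / 2 + 2 := by gcongr
        _ ≤ L := by linarith
    · rw [Real.norm_eq_abs, abs_of_nonneg hlogL, Real.norm_eq_abs,
        abs_of_pos (Real.rpow_pos_of_pos hL0 _)] at h2
      linarith

theorem c1_of (h1 : St_TR) (h2 : St_L2) : St_C1 := by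
  classical
  intro B A S hT η hη K
  obtain ⟨s, hs⟩ := exists_nat_ge (((K : ℝ) + 9) / η)
  have hs' : (K : ℝ) + 9 ≤ η * s := by
    rw [div_le_iff₀ hη] at hs
    linarith
  obtain ⟨δ, hδ, M1, hM1⟩ := h1 B A S hT (2 * s) 2
  have hlog : Tendsto (fun M : ℕ => log (M : ℝ)) atTop atTop :=
    Real.tendsto_log_atTop.comp tendsto_natCast_atTop_atTop
  obtain ⟨M2, hM2⟩ := eventually_atTop.1 (hlog.eventually (ev_L B A η hη s))
  refine ⟨max (max M1 M2) 1, fun M hM P hP => ?_⟩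
  have hMM1 : M1 ≤ M := le_trans (le_max_left _ _) (le_trans (le_max_left _ _) hM)
  have hMM2 : M2 ≤ M := le_trans (le_max_right _ _) (le_trans (le_max_left _ _) hM)
  have hM0 : 1 ≤ M := le_trans (le_max_right _ _) hM
  have : IsProbabilityMeasure P := hT.1 M hM0 P hP
  obtain ⟨l1, l2, l3, l4, l5, l6, l7⟩ := hM2 M hMM2
  set L : ℝ := log M with hL
  have hL0 : 0 < L := by linarith
  have hδ1 : (M : ℝ) ^ (-δ) ≤ 1 :=
    Real.rpow_le_one_of_one_le_of_nonpos (by exact_mod_cast hM0) (by linarith)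
  rcases lt_or_ge A 0 with hA | hA
  · refine ⟨∅, MeasurableSet.empty, ?_, fun x _ b w N c _ _ hN => ?_⟩
    · simp only [measureReal_empty]
      positivity
    · have h3 : (0 : ℝ) ≤ N := Nat.cast_nonneg N
      nlinarith
  set Nm : ℕ := ⌊A * L⌋₊ with hNm
  have hNmle : (Nm : ℝ) ≤ A * L := Nat.floor_le (by positivity)
  set Q : ℕ := ⌊L ^ 2⌋₊ with hQ
  set T : ℝ := L ^ (η / 2) with hTdef
  have hT0 : 0 < T := Real.rpow_pos_of_pos hL0 _
  set Vld : ℕ × ℕ × ℕ × ℕ → Prop := fun q => 2 ≤ q.1 ∧ 1 ≤ q.2.1 ∧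
    q.1 ^ q.2.1 ≤ q.1 * (Nm + 1) ∧ q.2.2.1 < q.1 ^ q.2.1 ∧ q.2.1 * q.2.2.2 ≤ Nm with hVld
  set I : Finset (ℕ × ℕ × ℕ × ℕ) :=
    (range (B + 1) ×ˢ range (Q + 1) ×ˢ range (Q + 1) ×ˢ range (Q + 1)).filter Vld with hI
  set EV : ℕ × ℕ × ℕ × ℕ → Set ℝ := fun q =>
    {x | T * (1 + √((q.2.1 * q.2.2.2 : ℕ) / (q.1 : ℝ) ^ q.2.1)) ≤
      |occ q.1 q.2.1 (q.2.1 * q.2.2.2) q.2.2.1 x -
        (q.2.1 * q.2.2.2 : ℕ) / (q.1 : ℝ) ^ q.2.1|} with hEV
  have hbw : ∀ b w : ℕ, b ≤ B → b ^ w ≤ b * (Nm + 1) → (b : ℝ) ^ w ≤ L ^ 2 := by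
    intro b w hb hbw
    calc (b : ℝ) ^ w ≤ (b : ℝ) * (Nm + 1) := by exact_mod_cast hbw
      _ ≤ B * (A * L + 1) := by gcongr
      _ ≤ L ^ 2 := l2
  have h2w : ∀ b w : ℕ, 2 ≤ b → b ≤ B → b ^ w ≤ b * (Nm + 1) → (2 : ℝ) ^ w ≤ L ^ 2 := by
    intro b w hb2 hb h
    have : (2 : ℝ) ≤ b := by exact_mod_cast hb2
    calc (2 : ℝ) ^ w ≤ (b : ℝ) ^ w := by gcongr
      _ ≤ L ^ 2 := hbw b w hb h
  have hevent : ∀ q ∈ I, P.real (EV q) ≤ L / T ^ (2 * s) := by
    rintro ⟨b, w, c, J⟩ hq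
    rw [hI, mem_filter] at hq
    obtain ⟨hq1, v1, v2, v3, v4, v5⟩ := hq
    simp only at v1 v2 v3 v4 v5
    rw [mem_product, mem_range] at hq1
    have hbB : b ≤ B := by
      have := hq1.1
      simp only at this
      omega
    have hb1 : 1 ≤ b := by omega
    have hE : (0 : ℝ) ≤ 6 * (2 * s).factorial * (w : ℝ) ^ (2 * s) := by positivity
    have hwJ : ((w * J : ℕ) : ℝ) ≤ A * log M := by
      calc ((w * J : ℕ) : ℝ) ≤ (Nm : ℝ) := by exact_mod_cast v5
        _ ≤ A * L := hNmle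
    have hF : ∀ (n c' : Fin (2 * s) → ℕ),
        |∏ i, ((if c' i = c then (1 : ℝ) else 0) - 1 / (b : ℝ) ^ w)| ≤ 1 := by
      intro n c'
      rw [Finset.abs_prod]
      refine prod_le_one (fun i _ => abs_nonneg _) fun i _ => ?_
      have hbR : (1 : ℝ) ≤ (b : ℝ) ^ w := one_le_pow₀ (by exact_mod_cast hb1)
      have h5 : 1 / (b : ℝ) ^ w ≤ 1 := by
        rw [div_le_one (by linarith)]; exact hbR
      have h6 : 0 ≤ 1 / (b : ℝ) ^ w := by positivity
      rw [abs_le]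
      split_ifs <;> constructor <;> linarith
    have hTR := hM1 M hMM1 P hP b w (w * J) hb1 hbB hwJ (hbw b w hbB v3)
      (fun _ c' => ∏ i, ((if c' i = c then (1 : ℝ) else 0) - 1 / (b : ℝ) ^ w)) hF
    have hmom := mom_P P h2 hb1 v2 v4 (hTR.trans hδ1)
    have hev := event_P P hb1 v2 hT0 hE hmom
    refine hev.trans ?_
    have := (l7 w (h2w b w v1 hbB v3)).1
    gcongr
    linarith
  have hcard : (I.card : ℝ) ≤ L ^ 8 := by
    have h3 : (I.card : ℝ) ≤ ((B + 1) * ((Q + 1) * ((Q + 1) * (Q + 1))) : ℕ) := by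
      have := card_filter_le
        (range (B + 1) ×ˢ range (Q + 1) ×ˢ range (Q + 1) ×ˢ range (Q + 1)) Vld
      rw [card_product, card_product, card_product, card_range, card_range] at this
      exact_mod_cast this
    have hQle : ((Q : ℝ) + 1) ≤ 2 * L ^ 2 := by
      have : (Q : ℝ) ≤ L ^ 2 := Nat.floor_le (by positivity)
      nlinarith
    have hQ0 : (0 : ℝ) ≤ (Q : ℝ) + 1 := by positivity
    calc (I.card : ℝ) ≤ ((B + 1) * ((Q + 1) * ((Q + 1) * (Q + 1))) : ℕ) := h3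
      _ = ((B : ℝ) + 1) * (((Q : ℝ) + 1) * (((Q : ℝ) + 1) * ((Q : ℝ) + 1))) := by push_cast; ring
      _ ≤ L * ((2 * L ^ 2) * ((2 * L ^ 2) * (2 * L ^ 2))) := by gcongr
      _ = 8 * L ^ 7 := by ring
      _ ≤ L * L ^ 7 := by gcongr
      _ = L ^ 8 := by ring
  have hTs : L ^ (K + 9) ≤ T ^ (2 * s) := by
    have h3 : T ^ (2 * s) = L ^ (η * s) := by
      rw [hTdef, ← Real.rpow_natCast, ← Real.rpow_mul hL0.le]
      congr 1
      push_cast
      ring
    rw [h3, ← Real.rpow_natCast]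
    refine Real.rpow_le_rpow_of_exponent_le l1 ?_
    push_cast
    linarith
  refine ⟨⋃ q ∈ I, EV q, ?_, ?_, ?_⟩
  · refine Finset.measurableSet_biUnion _ fun q _ => ?_
    exact measurableSet_le measurable_const ((measurable_occ _ _ _ _).sub_const _).abs
  · calc P.real (⋃ q ∈ I, EV q) ≤ ∑ q ∈ I, P.real (EV q) := measureReal_biUnion_finset_le _ _
      _ ≤ ∑ _q ∈ I, L / T ^ (2 * s) := sum_le_sum hevent
      _ = I.card * (L / T ^ (2 * s)) := by rw [sum_const, nsmul_eq_mul]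
      _ ≤ L ^ 8 * (L / L ^ (K + 9)) := by gcongr
      _ = (L ^ K)⁻¹ := by
          rw [pow_add]
          field_simp
  · intro x hx b w N c hb2 hbB hN hc
    have hb1 : 1 ≤ b := by omega
    have hb' : (0 : ℝ) < b := by exact_mod_cast hb1
    have hNN : N ≤ Nm := Nat.le_floor hN
    have hTT : L ^ η = T * T := by
      rw [hTdef, ← Real.rpow_add hL0]
      congr 1
      ring
    -- the words of moderate length
    have key : ∀ w c : ℕ, 1 ≤ w → b ^ w ≤ b * (Nm + 1) → c < b ^ w →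
        |occ b w N c x - N / (b : ℝ) ^ w| ≤ 2 * T * (1 + √(N / (b : ℝ) ^ w)) := by
      intro w c hw hbw' hc
      set J := N / w with hJ
      have hwJ : w * J ≤ N := Nat.mul_div_le N w
      have hwJ2 : N ≤ w * J + w := by
        have := Nat.lt_mul_div_succ N (show 0 < w by omega)
        rw [← hJ] at this
        nlinarith
      have hL2 := hbw b w hbB hbw'
      have hq : (b, w, c, J) ∈ I := by
        rw [hI, mem_filter]
        refine ⟨?_, hb2, hw, hbw', hc, hwJ.trans hNN⟩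
        have hbq : b ^ w ≤ Q := Nat.le_floor (by push_cast; exact hL2)
        have hwq : w < b ^ w := Nat.lt_pow_self (by omega)
        have hJq : J ≤ Q := by
          have hJN : J ≤ N := Nat.div_le_self N w
          have : Nm ≤ Q := Nat.le_floor (by linarith)
          omega
        simp only [mem_product, mem_range]
        omega
      have hx1 : x ∉ EV (b, w, c, J) := fun h => hx (Set.mem_biUnion hq h)
      rw [hEV] at hx1
      simp only [Set.mem_ofPred_eq, not_le] at hx1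
      have hbwpos : (0 : ℝ) < (b : ℝ) ^ w := by positivity
      have hbw1 : (1 : ℝ) ≤ (b : ℝ) ^ w := one_le_pow₀ (by exact_mod_cast hb1)
      have hwT : (w : ℝ) ≤ T := (l7 w (h2w b w hb2 hbB hbw')).2
      have o1 := occ_mono b w c x hwJ
      have o2 := occ_add_le b w c x (N' := N) (N := w * J) (d := w) hwJ2
      have m1 : ((w * J : ℕ) : ℝ) / (b : ℝ) ^ w ≤ N / (b : ℝ) ^ w := by
        gcongr
      have m2 : (N : ℝ) / (b : ℝ) ^ w ≤ ((w * J : ℕ) : ℝ) / (b : ℝ) ^ w + w := by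
        have h5 : (N : ℝ) ≤ ((w * J : ℕ) : ℝ) + w := by exact_mod_cast hwJ2
        calc (N : ℝ) / (b : ℝ) ^ w ≤ (((w * J : ℕ) : ℝ) + w) / (b : ℝ) ^ w := by gcongr
          _ = ((w * J : ℕ) : ℝ) / (b : ℝ) ^ w + w / (b : ℝ) ^ w := add_div _ _ _
          _ ≤ ((w * J : ℕ) : ℝ) / (b : ℝ) ^ w + w := by
              gcongr
              exact div_le_self (Nat.cast_nonneg w) hbw1
      have m3 : √(((w * J : ℕ) : ℝ) / (b : ℝ) ^ w) ≤ √(N / (b : ℝ) ^ w) := Real.sqrt_le_sqrt m1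
      have m4 : T * (1 + √(((w * J : ℕ) : ℝ) / (b : ℝ) ^ w)) ≤ T * (1 + √(N / (b : ℝ) ^ w)) := by
        gcongr
      have m5 : T ≤ T * (1 + √(N / (b : ℝ) ^ w)) := by
        have := Real.sqrt_nonneg ((N : ℝ) / (b : ℝ) ^ w)
        nlinarith
      have hx2 := abs_lt.1 hx1
      rw [abs_le]
      constructor <;> linarith [hx2.1, hx2.2]
    rcases Nat.eq_zero_or_pos w with hw | hw
    · subst hw
      have hc0 : c = 0 := by
        rw [pow_zero] at hc; omega
      subst hc0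
      rw [occ_zero hb1, pow_zero, div_one, sub_self, abs_zero]
      positivity
    by_cases hbw' : b ^ w ≤ b * (Nm + 1)
    · refine (key w c hw hbw' hc).trans ?_
      rw [hTT]
      have : 0 ≤ √((N : ℝ) / (b : ℝ) ^ w) := Real.sqrt_nonneg _
      gcongr
      linarith
    · push Not at hbw'
      set w0 := Nat.log b (b * (Nm + 1)) with hw0
      have hne : b * (Nm + 1) ≠ 0 := by positivity
      have a1 : b ^ w0 ≤ b * (Nm + 1) := Nat.pow_log_le_self b hne
      have a2 : b * (Nm + 1) < b ^ (w0 + 1) := Nat.lt_pow_succ_log_self (by omega) _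
      have a3 : Nm + 1 < b ^ w0 := by
        rw [pow_succ, mul_comm (b ^ w0)] at a2
        exact Nat.lt_of_mul_lt_mul_left a2
      have a4 : 1 ≤ w0 := by
        by_contra h
        have : w0 = 0 := by omega
        rw [this, pow_zero] at a3
        omega
      have a5 : w0 ≤ w := by
        by_contra h
        push Not at h
        have : b ^ w ≤ b ^ w0 := Nat.pow_le_pow_right (by omega) h.le
        omega
      have hc0 : c / b ^ (w - w0) < b ^ w0 := by
        rw [Nat.div_lt_iff_lt_mul (by positivity), ← pow_add]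
        have : w0 + (w - w0) = w := by omega
        rw [this]; exact hc
      have k1 := key w0 (c / b ^ (w - w0)) a4 a1 hc0
      have k2 := occ_prefix hb1 a5 N c x
      have k3 := occ_nonneg b w N c x
      have hNw0 : (N : ℝ) / (b : ℝ) ^ w0 ≤ 1 := by
        rw [div_le_one (by positivity)]
        have : N ≤ b ^ w0 := by omega
        exact_mod_cast this
      have hNw : (N : ℝ) / (b : ℝ) ^ w ≤ 1 := by
        rw [div_le_one (by positivity)]
        have h6 : N ≤ b ^ w := by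
          have : b ^ w0 ≤ b ^ w := Nat.pow_le_pow_right (by omega) a5
          omega
        exact_mod_cast h6
      have hs1 : √((N : ℝ) / (b : ℝ) ^ w0) ≤ 1 := by
        rw [Real.sqrt_le_left zero_le_one, one_pow]
        exact hNw0
      have hs2 : 0 ≤ √((N : ℝ) / (b : ℝ) ^ w) := Real.sqrt_nonneg _
      have hNw' : 0 ≤ (N : ℝ) / (b : ℝ) ^ w := by positivity
      have k4 : 2 * T * (1 + √((N : ℝ) / (b : ℝ) ^ w0)) ≤ 4 * T := by nlinarith
      have k5 := (abs_le.1 (k1.trans k4)).2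
      have k6 : 4 * T + 1 ≤ T * T := by nlinarith
      have k7 : T * T ≤ T * T * (1 + √((N : ℝ) / (b : ℝ) ^ w)) := by nlinarith
      rw [hTT, abs_le]
      constructor <;> nlinarith

end Pool.Agent.N407.FS
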