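import Pool.Agent.N407.FS.Occ

/-!
# Project FS: the longest repeated word (helper407)
-/

set_option autoImplicit false

namespace Pool.Agent.N407.FS

open Finset Real MeasureTheory Filter Topology Pool.Agent.Y933.KD Pool.Agent.N639.FS

lemma rep_mono {b : ℕ} (hb : 1 ≤ b) {w w' : ℕ} (h : w' ≤ w) {N : ℕ} {x : ℝ}
    (hr : Rep b w N x) : Rep b w' N x := by
  obtain ⟨i, hi, j, hj, hij, he⟩ := hr
  exact ⟨i, hi, j, hj, hij, by rw [wd_prefix hb h, wd_prefix hb h, he]⟩

lemma sum_pi_succ (s : Finset ℕ) (k : ℕ) (f : (Fin (k + 1) → ℕ) → ℝ) :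
    ∑ n ∈ Fintype.piFinset (fun _ : Fin (k + 1) => s), f n =
      ∑ a ∈ s, ∑ n ∈ Fintype.piFinset (fun _ : Fin k => s), f (Fin.cons a n) := by
  rw [← sum_product' (f := fun a n => f (Fin.cons a n))]
  symm
  refine sum_bij' (fun p _ => (Fin.cons p.1 p.2 : Fin (k + 1) → ℕ))
    (fun n _ => (n 0, fun i => n i.succ)) ?_ ?_ ?_ ?_ ?_
  · rintro ⟨a, n⟩ h
    simp only [mem_product, Fintype.mem_piFinset] at h ⊢
    intro i
    refine Fin.cases ?_ (fun j => ?_) i
    · simpa using h.1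
    · simpa using h.2 j
  · intro n h
    simp only [mem_product, Fintype.mem_piFinset] at h ⊢
    exact ⟨h 0, fun i => h i.succ⟩
  · rintro ⟨a, n⟩ _
    simp
  · intro n _
    funext i
    refine Fin.cases ?_ (fun j => ?_) i <;> simp
  · intro p _
    rfl

lemma sum_pi_zero (s : Finset ℕ) (f : (Fin 0 → ℕ) → ℝ) :
    ∑ n ∈ Fintype.piFinset (fun _ : Fin 0 => s), f n = f ![] := by
  rw [Fintype.piFinset_of_isEmpty]
  simp only [univ_unique, sum_singleton]
  congr 1

lemma sum_pi_two (s : Finset ℕ) (f : (Fin 2 → ℕ) → ℝ) :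
    ∑ n ∈ Fintype.piFinset (fun _ : Fin 2 => s), f n = ∑ a ∈ s, ∑ b ∈ s, f ![a, b] := by
  rw [sum_pi_succ]
  refine sum_congr rfl fun a _ => ?_
  rw [sum_pi_succ]
  refine sum_congr rfl fun b _ => ?_
  rw [sum_pi_zero]
  rfl

lemma sum_pi_three (s : Finset ℕ) (f : (Fin 3 → ℕ) → ℝ) :
    ∑ n ∈ Fintype.piFinset (fun _ : Fin 3 => s), f n =
      ∑ a ∈ s, ∑ b ∈ s, ∑ c ∈ s, f ![a, b, c] := by
  rw [sum_pi_succ]
  refine sum_congr rfl fun a _ => ?_
  rw [sum_pi_succ]
  refine sum_congr rfl fun b _ => ?_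
  rw [sum_pi_succ]
  refine sum_congr rfl fun c _ => ?_
  rw [sum_pi_zero]
  rfl

lemma sum_pi_four (s : Finset ℕ) (f : (Fin 4 → ℕ) → ℝ) :
    ∑ n ∈ Fintype.piFinset (fun _ : Fin 4 => s), f n =
      ∑ a ∈ s, ∑ b ∈ s, ∑ c ∈ s, ∑ d ∈ s, f ![a, b, c, d] := by
  rw [sum_pi_succ]
  refine sum_congr rfl fun a _ => ?_
  rw [sum_pi_succ]
  refine sum_congr rfl fun b _ => ?_
  rw [sum_pi_succ]
  refine sum_congr rfl fun c _ => ?_
  rw [sum_pi_succ]
  refine sum_congr rfl fun d _ => ?_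
  rw [sum_pi_zero]
  rfl

lemma abs_prod_cnd_le {r : ℕ} (b w : ℕ) (n c : Fin r → ℕ) (x : ℝ) :
    |∏ i, cnd b w (n i) (c i) x| ≤ 1 := by
  rw [Finset.abs_prod]
  refine prod_le_one (fun i _ => abs_nonneg _) fun i _ => ?_
  rw [abs_of_nonneg (cnd_nonneg _ _ _ _ _)]
  exact cnd_le_one _ _ _ _ _

/-- the words at different multiples of `w` are independent and uniform -/
lemma int_indep (h1 : St_L1) {b w r : ℕ} (hb : 1 ≤ b) (n : Fin r → ℕ)
    (hn : Function.Injective n) (hd : ∀ i, w ∣ n i) (F : (Fin r → ℕ) → ℝ) :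
    ∫ x, F (fun i => wd b w (n i) x) ∂Leb =
      (∑ c ∈ Fintype.piFinset (fun _ : Fin r => range (b ^ w)), F c) *
        (1 / (b : ℝ) ^ w) ^ r := by
  classical
  have e1 : ∀ x, F (fun i => wd b w (n i) x) =
      ∑ c ∈ Fintype.piFinset (fun _ : Fin r => range (b ^ w)),
        F c * ∏ i, cnd b w (n i) (c i) x := by
    intro x
    rw [sum_eq_single (fun i => wd b w (n i) x)]
    · have : ∏ i, cnd b w (n i) (wd b w (n i) x) x = 1 :=
        prod_eq_one fun i _ => by unfold cnd; rw [if_pos rfl]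
      rw [this, mul_one]
    · intro c _ hc
      obtain ⟨i, hi⟩ := Function.ne_iff.1 hc
      have : ∏ i, cnd b w (n i) (c i) x = 0 := by
        refine prod_eq_zero (mem_univ i) ?_
        unfold cnd
        rw [if_neg (fun h => hi h.symm)]
      rw [this, mul_zero]
    · intro h
      exfalso
      apply h
      rw [Fintype.mem_piFinset]
      intro i
      exact mem_range.2 (wd_lt hb _ _ _)
  have hmeas : ∀ c : Fin r → ℕ, Measurable (fun x => ∏ i, cnd b w (n i) (c i) x) := fun c =>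
    Finset.measurable_fun_prod _ fun i _ => measurable_cnd _ _ _ _
  simp only [e1]
  rw [integral_finsetSum]
  · rw [sum_mul]
    refine sum_congr rfl fun c hc => ?_
    rw [Fintype.mem_piFinset] at hc
    rw [MeasureTheory.integral_const_mul]
    congr 1
    set c' : ℕ → ℕ := fun m => if h : ∃ i, n i = m then c h.choose else 0 with hc'
    have hcc : ∀ i, c' (n i) = c i := by
      intro i
      have h : ∃ j, n j = n i := ⟨i, rfl⟩
      rw [hc']
      simp only
      rw [dif_pos h]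
      exact congrArg c (hn h.choose_spec)
    have h2 := h1 b w hb (univ.image n) ?_ c' ?_
    · rw [card_image_of_injective _ hn, card_univ, Fintype.card_fin] at h2
      rw [← h2]
      congr 1
      funext x
      rw [prod_image (fun i _ j _ h => hn h)]
      exact prod_congr rfl fun i _ => by rw [hcc i]
    · intro m hm m' hm' hlt
      obtain ⟨i, _, rfl⟩ := mem_image.1 hm
      obtain ⟨j, _, rfl⟩ := mem_image.1 hm'
      obtain ⟨p, hp⟩ := hd i
      obtain ⟨q, hq⟩ := hd j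
      rw [hp, hq] at hlt ⊢
      have : p < q := Nat.lt_of_mul_lt_mul_left hlt
      calc w * p + w = w * (p + 1) := by ring
        _ ≤ w * q := Nat.mul_le_mul_left _ this
    · intro m
      rw [hc']
      simp only
      split_ifs with h
      · exact mem_range.1 (hc _)
      · exact Nat.pos_of_ne_zero (by positivity)
  · intro c _
    refine Integrable.const_mul ?_ _
    refine Integrable.of_bound (C := 1) (hmeas c).aestronglyMeasurable
      (Eventually.of_forall fun x => ?_)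
    rw [Real.norm_eq_abs]
    exact abs_prod_cnd_le _ _ _ _ _

/-- the centred indicator of equal words -/
noncomputable def G (q u v : ℕ) : ℝ := (if u = v then (1 : ℝ) else 0) - 1 / q

lemma abs_G_le {q : ℕ} (hq : 1 ≤ q) (u v : ℕ) : |G q u v| ≤ 1 := by
  unfold G
  have h1 : (1 : ℝ) / q ≤ 1 := by
    rw [div_le_one (by positivity)]
    exact_mod_cast hq
  have h2 : (0 : ℝ) ≤ 1 / q := by positivity
  rw [abs_le]
  split_ifs <;> constructor <;> linarith

lemma G_symm (q u v : ℕ) : G q u v = G q v u := by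
  unfold G
  simp only [eq_comm]

lemma sum_G {q : ℕ} (hq : 1 ≤ q) {u : ℕ} (hu : u ∈ range q) : ∑ v ∈ range q, G q u v = 0 := by
  unfold G
  have hq' : (q : ℝ) ≠ 0 := by positivity
  rw [sum_sub_distrib, sum_const, card_range, nsmul_eq_mul, sum_ite_eq, if_pos hu]
  field_simp
  ring

lemma sum_G_sq {q : ℕ} (hq : 1 ≤ q) :
    ∑ u ∈ range q, ∑ v ∈ range q, G q u v * G q u v ≤ q := by
  have hq' : (0 : ℝ) < (q : ℝ) := by positivity
  have h1 : ∀ u ∈ range q, ∑ v ∈ range q, G q u v * G q u v ≤ 1 := by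
    intro u hu
    have h2 : ∀ v, G q u v * G q u v =
        (if u = v then (1 : ℝ) else 0) * (1 - 1 / q) - (1 / q) * G q u v := by
      intro v
      unfold G
      split_ifs <;> ring
    simp only [h2]
    rw [sum_sub_distrib, ← sum_mul, ← mul_sum, sum_G hq hu, sum_ite_eq, if_pos hu]
    have : (0 : ℝ) ≤ 1 / q := by positivity
    linarith
  calc ∑ u ∈ range q, ∑ v ∈ range q, G q u v * G q u v ≤ ∑ _u ∈ range q, (1 : ℝ) := sum_le_sum h1
    _ = q := by simp

/-- covariances of the indicators of equal words at different pairs of places -/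
lemma cov_pairs (h1 : St_L1) {b w : ℕ} (hb : 1 ≤ b) {I1 I2 : Finset ℕ}
    (hd1 : ∀ i ∈ I1, w ∣ i) (hd2 : ∀ i ∈ I2, w ∣ i) (hdis : ∀ i ∈ I1, ∀ j ∈ I2, i ≠ j)
    {i j i' j' : ℕ} (hi : i ∈ I1) (hj : j ∈ I2) (hi' : i' ∈ I1) (hj' : j' ∈ I2) :
    ∫ x, G (b ^ w) (wd b w i x) (wd b w j x) * G (b ^ w) (wd b w i' x) (wd b w j' x) ∂Leb ≤
      if i = i' ∧ j = j' then 1 / (b : ℝ) ^ w else 0 := by
  have hq : 1 ≤ b ^ w := Nat.one_le_pow _ _ hb
  set q := b ^ w with hqdef
  have hqR : (0 : ℝ) < (b : ℝ) ^ w := by positivity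
  have hij : i ≠ j := hdis i hi j hj
  have hij' : i ≠ j' := hdis i hi j' hj'
  have hi'j : i' ≠ j := hdis i' hi' j hj
  have hi'j' : i' ≠ j' := hdis i' hi' j' hj'
  by_cases e1 : i = i'
  · subst e1
    by_cases e2 : j = j'
    · subst e2
      rw [if_pos ⟨rfl, rfl⟩]
      have h2 := int_indep h1 (w := w) hb ![i, j] (by
        intro a a' h
        fin_cases a <;> fin_cases a' <;> simp_all) (by
        intro a
        fin_cases a
        · exact hd1 i hi
        · exact hd2 j hj) (fun c => G q (c 0) (c 1) * G q (c 0) (c 1))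
      simp only [Matrix.cons_val_zero, Matrix.cons_val_one] at h2
      rw [h2, sum_pi_two]
      simp only [Matrix.cons_val_zero, Matrix.cons_val_one]
      have h3 := sum_G_sq hq
      calc _ ≤ (q : ℝ) * (1 / (b : ℝ) ^ w) ^ 2 := by gcongr
        _ = 1 / (b : ℝ) ^ w := by
            rw [hqdef]; push_cast; field_simp
    · rw [if_neg (fun h => e2 h.2)]
      have h2 := int_indep h1 (w := w) hb ![i, j, j'] (by
        intro a a' h
        fin_cases a <;> fin_cases a' <;> simp_all) (by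
        intro a
        fin_cases a
        · exact hd1 i hi
        · exact hd2 j hj
        · exact hd2 j' hj') (fun c => G q (c 0) (c 1) * G q (c 0) (c 2))
      simp only [Matrix.cons_val] at h2
      have h3 : ∑ c ∈ Fintype.piFinset (fun _ : Fin 3 => range q),
          G q (c 0) (c 1) * G q (c 0) (c 2) = 0 := by
        rw [sum_pi_three]
        refine sum_eq_zero fun a ha => sum_eq_zero fun b _ => ?_
        simp only [Matrix.cons_val]
        have := sum_G hq ha
        rw [← mul_sum, this, mul_zero]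
      rw [h3, zero_mul] at h2
      exact le_of_eq h2
  · rw [if_neg (fun h => e1 h.1)]
    by_cases e2 : j = j'
    · subst e2
      have h2 := int_indep h1 (w := w) hb ![j, i, i'] (by
        intro a a' h
        fin_cases a <;> fin_cases a' <;> simp_all) (by
        intro a
        fin_cases a
        · exact hd2 j hj
        · exact hd1 i hi
        · exact hd1 i' hi') (fun c => G q (c 1) (c 0) * G q (c 2) (c 0))
      simp only [Matrix.cons_val] at h2
      have h3 : ∑ c ∈ Fintype.piFinset (fun _ : Fin 3 => range q),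
          G q (c 1) (c 0) * G q (c 2) (c 0) = 0 := by
        rw [sum_pi_three]
        refine sum_eq_zero fun a ha => sum_eq_zero fun b _ => ?_
        have := sum_G hq ha
        simp only [Matrix.cons_val]
        have h5 : ∀ c, G q b a * G q c a = G q b a * G q a c := fun c => by rw [G_symm q c a]
        rw [sum_congr rfl fun c _ => h5 c, ← mul_sum, this, mul_zero]
      rw [h3, zero_mul] at h2
      exact le_of_eq h2
    · have h2 := int_indep h1 (w := w) hb ![i, j, i', j'] (by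
        intro a a' h
        fin_cases a <;> fin_cases a' <;> simp_all) (by
        intro a
        fin_cases a
        · exact hd1 i hi
        · exact hd2 j hj
        · exact hd1 i' hi'
        · exact hd2 j' hj') (fun c => G q (c 0) (c 1) * G q (c 2) (c 3))
      simp only [Matrix.cons_val] at h2
      have h3 : ∑ c ∈ Fintype.piFinset (fun _ : Fin 4 => range q),
          G q (c 0) (c 1) * G q (c 2) (c 3) = 0 := by
        rw [sum_pi_four]
        refine sum_eq_zero fun a _ => sum_eq_zero fun b _ => sum_eq_zero fun c hc => ?_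
        have := sum_G hq hc
        simp only [Matrix.cons_val]
        rw [← mul_sum, this, mul_zero]
      rw [h3, zero_mul] at h2
      exact le_of_eq h2

/-- the centred number of repetitions between two sets of places, squared -/
noncomputable def Y (q : ℕ) (b w : ℕ) (I1 I2 : Finset ℕ) (x : ℝ) : ℝ :=
  (∑ i ∈ I1, ∑ j ∈ I2, G q (wd b w i x) (wd b w j x)) ^ 2

lemma measurable_Gwd (q b w i j : ℕ) : Measurable (fun x => G q (wd b w i x) (wd b w j x)) :=
  (measurable_of_countable (fun p : ℕ × ℕ => G q p.1 p.2)).comp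
    ((measurable_wd b w i).prodMk (measurable_wd b w j))

lemma measurable_Y (q b w : ℕ) (I1 I2 : Finset ℕ) : Measurable (Y q b w I1 I2) := by
  unfold Y
  exact (Finset.measurable_fun_sum _ fun i _ => Finset.measurable_fun_sum _ fun j _ =>
    measurable_Gwd q b w i j).pow_const 2

lemma Y_eq (q b w : ℕ) (I1 I2 : Finset ℕ) (x : ℝ) :
    Y q b w I1 I2 x = ∑ p ∈ I1 ×ˢ I2, ∑ p' ∈ I1 ×ˢ I2,
      G q (wd b w p.1 x) (wd b w p.2 x) * G q (wd b w p'.1 x) (wd b w p'.2 x) := by
  unfold Y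
  rw [← sum_product' (f := fun i j => G q (wd b w i x) (wd b w j x)), pow_two, sum_mul_sum]

lemma int_Y_le (h1 : St_L1) {b w : ℕ} (hb : 1 ≤ b) {I1 I2 : Finset ℕ}
    (hd1 : ∀ i ∈ I1, w ∣ i) (hd2 : ∀ i ∈ I2, w ∣ i) (hdis : ∀ i ∈ I1, ∀ j ∈ I2, i ≠ j) :
    ∫ x, Y (b ^ w) b w I1 I2 x ∂Leb ≤ (I1.card * I2.card : ℕ) / (b : ℝ) ^ w := by
  have hq : 1 ≤ b ^ w := Nat.one_le_pow _ _ hb
  have hint : ∀ i j i' j' : ℕ, Integrable (fun x => G (b ^ w) (wd b w i x) (wd b w j x) *
      G (b ^ w) (wd b w i' x) (wd b w j' x)) Leb := by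
    intro i j i' j'
    refine Integrable.of_bound (C := 1)
      ((measurable_Gwd _ _ _ _ _).mul (measurable_Gwd _ _ _ _ _)).aestronglyMeasurable
      (Eventually.of_forall fun x => ?_)
    rw [Real.norm_eq_abs, abs_mul]
    exact mul_le_one₀ (abs_G_le hq _ _) (abs_nonneg _) (abs_G_le hq _ _)
  simp only [Y_eq]
  rw [integral_finsetSum _ fun p _ => integrable_finsetSum _ fun p' _ => hint _ _ _ _]
  have h2 : ∀ p ∈ I1 ×ˢ I2, ∫ x, ∑ p' ∈ I1 ×ˢ I2,
      G (b ^ w) (wd b w p.1 x) (wd b w p.2 x) * G (b ^ w) (wd b w p'.1 x) (wd b w p'.2 x) ∂Leb ≤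
      1 / (b : ℝ) ^ w := by
    rintro ⟨i, j⟩ hp
    rw [mem_product] at hp
    rw [integral_finsetSum _ fun p' _ => hint _ _ _ _]
    calc _ ≤ ∑ p' ∈ I1 ×ˢ I2, (if (i, j) = p' then 1 / (b : ℝ) ^ w else 0) := by
          refine sum_le_sum ?_
          rintro ⟨i', j'⟩ hp'
          rw [mem_product] at hp'
          have := cov_pairs h1 hb hd1 hd2 hdis hp.1 hp.2 hp'.1 hp'.2
          simpa [Prod.mk.injEq] using this
      _ = 1 / (b : ℝ) ^ w := by
          rw [sum_ite_eq, if_pos (mem_product.2 hp)]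
  calc _ ≤ ∑ _p ∈ I1 ×ˢ I2, 1 / (b : ℝ) ^ w := sum_le_sum h2
    _ = _ := by
        rw [sum_const, card_product, nsmul_eq_mul]
        ring

/-- `Y` as a sum over quadruples of places -/
lemma Y_quad (q b w N : ℕ) {I1 I2 : Finset ℕ} (h1 : I1 ⊆ range N) (h2 : I2 ⊆ range N) (x : ℝ) :
    Y q b w I1 I2 x = ∑ n ∈ Fintype.piFinset (fun _ : Fin 4 => range N),
      (if (n 0 ∈ I1 ∧ n 1 ∈ I2) ∧ (n 2 ∈ I1 ∧ n 3 ∈ I2) then
        G q (wd b w (n 0) x) (wd b w (n 1) x) * G q (wd b w (n 2) x) (wd b w (n 3) x) else 0) := by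
  have e : ∀ f : ℕ → ℕ → ℝ, ∑ i ∈ I1, ∑ j ∈ I2, f i j =
      ∑ i ∈ range N, ∑ j ∈ range N, (if i ∈ I1 ∧ j ∈ I2 then f i j else 0) := by
    intro f
    rw [← sum_subset h1 (f := fun i => ∑ j ∈ range N, (if i ∈ I1 ∧ j ∈ I2 then f i j else 0))]
    · refine sum_congr rfl fun i hi => ?_
      rw [← sum_subset h2 (f := fun j => (if i ∈ I1 ∧ j ∈ I2 then f i j else 0))]
      · exact sum_congr rfl fun j hj => by rw [if_pos ⟨hi, hj⟩]
      · intro j _ hj
        rw [if_neg (fun h => hj h.2)]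
    · intro i _ hi
      exact sum_eq_zero fun j _ => by rw [if_neg (fun h => hi h.1)]
  rw [sum_pi_four]
  unfold Y
  rw [pow_two, e, sum_mul_sum]
  simp only [Matrix.cons_val]
  refine sum_congr rfl fun i _ => ?_
  simp only [sum_mul_sum]
  rw [sum_comm]
  refine sum_congr rfl fun j _ => ?_
  refine sum_congr rfl fun i' _ => ?_
  refine sum_congr rfl fun j' _ => ?_
  by_cases ha : i ∈ I1 ∧ j ∈ I2 <;> by_cases hb : i' ∈ I1 ∧ j' ∈ I2 <;> simp [ha, hb]

/-- sums of functions of words are integrable -/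
lemma integrable_wsum (P : Measure ℝ) [IsProbabilityMeasure P] {k : ℕ} (b w N : ℕ)
    (F : (Fin k → ℕ) → (Fin k → ℕ) → ℝ) (hF : ∀ n c, |F n c| ≤ 1) :
    Integrable (fun x => ∑ n ∈ Fintype.piFinset (fun _ : Fin k => range N),
      F n (fun i => wd b w (n i) x)) P := by
  refine integrable_finsetSum _ fun n _ => ?_
  refine Integrable.of_bound (C := 1) ?_ (Eventually.of_forall fun x => ?_)
  · exact ((measurable_of_countable (F n)).comp
      (measurable_pi_lambda _ fun i => measurable_wd b w (n i))).aestronglyMeasurable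
  · rw [Real.norm_eq_abs]; exact hF _ _

lemma pow_eq_exp {b : ℕ} (hb : 1 ≤ b) (w : ℕ) : (b : ℝ) ^ w = rexp (w * log b) := by
  rw [Real.exp_nat_mul, Real.exp_log (by positivity)]

lemma ev_N (B : ℕ) (ε : ℝ) (hε : 0 < ε) : ∀ᶠ t : ℝ in atTop,
    (B : ℝ) ≤ t ∧ 3 ≤ t ∧ 16 * log t ≤ t ∧ t ^ (-ε) ≤ ε / 4 ∧
      (4 / ε) * (256 * log t ^ 2) ≤ t ^ ε := by
  have e1 : ∀ᶠ t : ℝ in atTop, t ^ (-ε) ≤ ε / 4 :=
    (tendsto_rpow_neg_atTop hε).eventually (eventually_le_nhds (by positivity))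
  have e2 : ∀ᶠ t : ℝ in atTop, ‖log t‖ ≤ (1 / 16) * ‖id t‖ :=
    (Real.isLittleO_log_id_atTop).bound (by norm_num)
  have e3 : ∀ᶠ t : ℝ in atTop, ‖log t‖ ≤ √(ε / 1024) * ‖t ^ (ε / 2)‖ :=
    (isLittleO_log_rpow_atTop (by linarith : 0 < ε / 2)).bound (Real.sqrt_pos.2 (by positivity))
  filter_upwards [e1, e2, e3, eventually_ge_atTop (3 : ℝ), eventually_ge_atTop (B : ℝ)]
    with t h1 h2 h3 h4 h5
  have ht0 : 0 < t := by linarith
  have hlog : 0 ≤ log t := Real.log_nonneg (by linarith)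
  refine ⟨h5, h4, ?_, h1, ?_⟩
  · rw [Real.norm_eq_abs, abs_of_nonneg hlog, id, Real.norm_eq_abs, abs_of_pos ht0] at h2
    linarith
  · have hp : 0 < t ^ (ε / 2) := Real.rpow_pos_of_pos ht0 _
    rw [Real.norm_eq_abs, abs_of_nonneg hlog, Real.norm_eq_abs, abs_of_pos hp] at h3
    have h6 : log t ^ 2 ≤ (ε / 1024) * t ^ ε := by
      calc log t ^ 2 ≤ (√(ε / 1024) * t ^ (ε / 2)) ^ 2 := pow_le_pow_left₀ hlog h3 2
        _ = (ε / 1024) * t ^ ε := by
            rw [mul_pow, Real.sq_sqrt (by positivity), ← Real.rpow_natCast (t ^ (ε / 2)),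
              ← Real.rpow_mul ht0.le]
            congr 2
            push_cast
            ring
    calc (4 / ε) * (256 * log t ^ 2) ≤ (4 / ε) * (256 * ((ε / 1024) * t ^ ε)) := by gcongr
      _ = t ^ ε := by field_simp; ring

/-- the upper part: long words are not repeated -/
lemma upper_part (h3 : St_L3) (P : Measure ℝ) [IsProbabilityMeasure P] {b w N : ℕ} (hb : 1 ≤ b)
    {Δ : ℝ}
    (hTR : |∫ x, ∑ n ∈ Fintype.piFinset (fun _ : Fin 2 => range N),
        (if n 0 < n 1 ∧ wd b w (n 0) x = wd b w (n 1) x then (1 : ℝ) else 0) ∂P -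
      ∫ x, ∑ n ∈ Fintype.piFinset (fun _ : Fin 2 => range N),
        (if n 0 < n 1 ∧ wd b w (n 0) x = wd b w (n 1) x then (1 : ℝ) else 0) ∂Leb| ≤ Δ) :
    ∃ U : Set ℝ, MeasurableSet U ∧ P.real U ≤ (N : ℝ) ^ 2 / (b : ℝ) ^ w + Δ ∧
      ∀ x ∉ U, ¬ Rep b w N x := by
  classical
  set F : (Fin 2 → ℕ) → (Fin 2 → ℕ) → ℝ := fun n v =>
    if n 0 < n 1 ∧ v 0 = v 1 then (1 : ℝ) else 0 with hF
  have hF1 : ∀ n c, |F n c| ≤ 1 := by
    intro n c
    rw [hF]
    simp only
    split_ifs <;> norm_num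
  have hF0 : ∀ n c, 0 ≤ F n c := by
    intro n c
    rw [hF]
    simp only
    split_ifs <;> norm_num
  have hb' : (0 : ℝ) < (b : ℝ) ^ w := by positivity
  have hintP := integrable_wsum P b w N F hF1
  have hmk := mul_meas_ge_le_integral_of_nonneg (μ := P)
    (f := fun x => ∑ n ∈ Fintype.piFinset (fun _ : Fin 2 => range N),
      F n (fun i => wd b w (n i) x))
    (Eventually.of_forall fun x => by
      show (0 : ℝ) ≤ ∑ n ∈ Fintype.piFinset (fun _ : Fin 2 => range N),
        F n (fun i => wd b w (n i) x)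
      exact sum_nonneg fun n _ => hF0 n (fun i => wd b w (n i) x)) hintP 1
  have hms : Measurable (fun x => ∑ n ∈ Fintype.piFinset (fun _ : Fin 2 => range N),
      F n (fun i => wd b w (n i) x)) :=
    Finset.measurable_fun_sum _ fun n _ => (measurable_of_countable (F n)).comp
      (measurable_pi_lambda _ fun i => measurable_wd b w (n i))
  refine ⟨{x | 1 ≤ ∑ n ∈ Fintype.piFinset (fun _ : Fin 2 => range N),
      F n (fun i => wd b w (n i) x)}, measurableSet_le measurable_const hms, ?_, ?_⟩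
  · have hL : ∫ x, ∑ n ∈ Fintype.piFinset (fun _ : Fin 2 => range N),
        F n (fun i => wd b w (n i) x) ∂Leb ≤ (N : ℝ) ^ 2 / (b : ℝ) ^ w := by
      rw [integral_finsetSum]
      · have hterm : ∀ n : Fin 2 → ℕ, ∫ x, F n (fun i => wd b w (n i) x) ∂Leb ≤
            1 / (b : ℝ) ^ w := by
          intro n
          by_cases hn : n 0 < n 1
          · have e1 : (fun x => F n (fun i => wd b w (n i) x)) =
                ({x | wd b w (n 0) x = wd b w (n 1) x} : Set ℝ).indicator (1 : ℝ → ℝ) := by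
              funext x
              rw [hF]
              simp only
              by_cases hx : wd b w (n 0) x = wd b w (n 1) x
              · rw [if_pos ⟨hn, hx⟩, Set.indicator_of_mem (by exact hx)]
                rfl
              · rw [if_neg (fun h => hx h.2), Set.indicator_of_notMem (by exact hx)]
            rw [e1, integral_indicator_one
              (measurableSet_eq_fun (measurable_wd _ _ _) (measurable_wd _ _ _))]
            exact (h3 b w (n 0) (n 1) hb hn).le
          · have e1 : (fun x => F n (fun i => wd b w (n i) x)) = fun _ => 0 := by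
              funext x
              rw [hF]
              simp only
              rw [if_neg (fun h => hn h.1)]
            rw [e1, integral_zero]
            positivity
        calc _ ≤ ∑ _n ∈ Fintype.piFinset (fun _ : Fin 2 => range N), 1 / (b : ℝ) ^ w :=
              sum_le_sum fun n _ => hterm n
          _ = (N : ℝ) ^ 2 / (b : ℝ) ^ w := by
              rw [sum_const, Fintype.card_piFinset]
              simp only [card_range, prod_const, card_univ, Fintype.card_fin, nsmul_eq_mul]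
              push_cast
              ring
      · intro n _
        refine Integrable.of_bound (C := 1) ((measurable_of_countable (F n)).comp
          (measurable_pi_lambda _ fun i => measurable_wd b w (n i))).aestronglyMeasurable
          (Eventually.of_forall fun x => ?_)
        rw [Real.norm_eq_abs]; exact hF1 n (fun i => wd b w (n i) x)
    have h4 := (abs_le.1 hTR).2
    have h5 : ∫ x, ∑ n ∈ Fintype.piFinset (fun _ : Fin 2 => range N),
        (if n 0 < n 1 ∧ wd b w (n 0) x = wd b w (n 1) x then (1 : ℝ) else 0) ∂P =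
        ∫ x, ∑ n ∈ Fintype.piFinset (fun _ : Fin 2 => range N),
          F n (fun i => wd b w (n i) x) ∂P := rfl
    have h6 : ∫ x, ∑ n ∈ Fintype.piFinset (fun _ : Fin 2 => range N),
        (if n 0 < n 1 ∧ wd b w (n 0) x = wd b w (n 1) x then (1 : ℝ) else 0) ∂Leb =
        ∫ x, ∑ n ∈ Fintype.piFinset (fun _ : Fin 2 => range N),
          F n (fun i => wd b w (n i) x) ∂Leb := rfl
    rw [h5, h6] at h4
    linarith
  · intro x hx hrep
    obtain ⟨i, hi, j, hj, hij, he⟩ := hrep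
    apply hx
    simp only [Set.mem_ofPred_eq]
    have h4 : F ![i, j] (fun a => wd b w ((![i, j] : Fin 2 → ℕ) a) x) = 1 := by
      rw [hF]
      simp only [Matrix.cons_val]
      rw [if_pos ⟨hij, he⟩]
    calc (1 : ℝ) = F ![i, j] (fun a => wd b w ((![i, j] : Fin 2 → ℕ) a) x) := h4.symm
      _ ≤ ∑ n ∈ Fintype.piFinset (fun _ : Fin 2 => range N), F n (fun i => wd b w (n i) x) :=
          single_le_sum (f := fun n : Fin 2 → ℕ => F n (fun a => wd b w (n a) x))
            (fun n _ => hF0 n (fun a => wd b w (n a) x)) (by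
              rw [Fintype.mem_piFinset]
              intro a
              fin_cases a
              · exact mem_range.2 hi
              · exact mem_range.2 hj)

/-- the lower part: short words are repeated -/
lemma lower_part (h1 : St_L1) (P : Measure ℝ) [IsProbabilityMeasure P] {b w N J : ℕ} (hb : 1 ≤ b)
    (hw : 1 ≤ w) (hJ : 1 ≤ J) (hJN : w * (2 * J) ≤ N) {Δ : ℝ}
    (hTR : ∀ F : (Fin 4 → ℕ) → (Fin 4 → ℕ) → ℝ, (∀ n c, |F n c| ≤ 1) →
      |∫ x, ∑ n ∈ Fintype.piFinset (fun _ : Fin 4 => range N), F n (fun i => wd b w (n i) x) ∂P -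
      ∫ x, ∑ n ∈ Fintype.piFinset (fun _ : Fin 4 => range N), F n (fun i => wd b w (n i) x) ∂Leb|
      ≤ Δ) :
    ∃ U : Set ℝ, MeasurableSet U ∧
      P.real U ≤ ((J : ℝ) ^ 2 / (b : ℝ) ^ w + Δ) / ((J : ℝ) ^ 2 / (b : ℝ) ^ w) ^ 2 ∧
      ∀ x ∉ U, Rep b w N x := by
  classical
  have hq : 1 ≤ b ^ w := Nat.one_le_pow _ _ hb
  have hqR : (0 : ℝ) < (b : ℝ) ^ w := by positivity
  have hJR : (1 : ℝ) ≤ J := by exact_mod_cast hJ
  set I1 : Finset ℕ := (range J).image (fun a => w * a) with hI1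
  set I2 : Finset ℕ := (range J).image (fun a => w * (J + a)) with hI2
  set m : ℝ := (J : ℝ) ^ 2 / (b : ℝ) ^ w with hm
  have hm0 : 0 < m := by positivity
  have hc1 : I1.card = J := by
    rw [hI1, card_image_of_injective, card_range]
    intro a a' h
    exact Nat.eq_of_mul_eq_mul_left (by omega) h
  have hc2 : I2.card = J := by
    rw [hI2, card_image_of_injective, card_range]
    intro a a' h
    have := Nat.eq_of_mul_eq_mul_left (show 0 < w by omega) h
    omega
  have hd1 : ∀ i ∈ I1, w ∣ i := by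
    intro i hi
    obtain ⟨a, _, rfl⟩ := mem_image.1 hi
    exact Dvd.intro _ rfl
  have hd2 : ∀ i ∈ I2, w ∣ i := by
    intro i hi
    obtain ⟨a, _, rfl⟩ := mem_image.1 hi
    exact Dvd.intro _ rfl
  have hlt : ∀ i ∈ I1, ∀ j ∈ I2, i < j := by
    intro i hi j hj
    obtain ⟨a, ha, rfl⟩ := mem_image.1 hi
    obtain ⟨a', _, rfl⟩ := mem_image.1 hj
    rw [mem_range] at ha
    exact Nat.mul_lt_mul_of_pos_left (by omega) (by omega)
  have hN2 : ∀ j ∈ I2, j < N := by
    intro j hj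
    obtain ⟨a', ha', rfl⟩ := mem_image.1 hj
    rw [mem_range] at ha'
    calc w * (J + a') < w * (2 * J) := Nat.mul_lt_mul_of_pos_left (by omega) (by omega)
      _ ≤ N := hJN
  have hN1 : ∀ i ∈ I1, i < N := by
    intro i hi
    obtain ⟨a, ha, rfl⟩ := mem_image.1 hi
    rw [mem_range] at ha
    calc w * a < w * (2 * J) := Nat.mul_lt_mul_of_pos_left (by omega) (by omega)
      _ ≤ N := hJN
  have hs1 : I1 ⊆ range N := fun i hi => mem_range.2 (hN1 i hi)
  have hs2 : I2 ⊆ range N := fun i hi => mem_range.2 (hN2 i hi)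
  have hintL := int_Y_le h1 (w := w) hb hd1 hd2 (fun i hi j hj => (hlt i hi j hj).ne)
  rw [hc1, hc2] at hintL
  set F : (Fin 4 → ℕ) → (Fin 4 → ℕ) → ℝ := fun n v =>
    if (n 0 ∈ I1 ∧ n 1 ∈ I2) ∧ (n 2 ∈ I1 ∧ n 3 ∈ I2) then
        G (b ^ w) (v 0) (v 1) * G (b ^ w) (v 2) (v 3) else 0 with hF
  have hF1 : ∀ n c, |F n c| ≤ 1 := by
    intro n c
    rw [hF]
    simp only
    split_ifs
    · rw [abs_mul]
      exact mul_le_one₀ (abs_G_le hq _ _) (abs_nonneg _) (abs_G_le hq _ _)
    · norm_num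
  have hYF : ∀ x, Y (b ^ w) b w I1 I2 x = ∑ n ∈ Fintype.piFinset (fun _ : Fin 4 => range N),
      F n (fun i => wd b w (n i) x) := fun x => Y_quad (b ^ w) b w N hs1 hs2 x
  have hT := (abs_le.1 (hTR F hF1)).2
  have hintP : Integrable (fun x => Y (b ^ w) b w I1 I2 x) P := by
    simp only [hYF]
    exact integrable_wsum P b w N F hF1
  simp only [← hYF] at hT
  have hmk := mul_meas_ge_le_integral_of_nonneg (μ := P)
    (f := fun x => Y (b ^ w) b w I1 I2 x)
    (Eventually.of_forall fun x => sq_nonneg _) hintP (m ^ 2)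
  refine ⟨{x | m ^ 2 ≤ Y (b ^ w) b w I1 I2 x},
    measurableSet_le measurable_const (measurable_Y _ _ _ _ _), ?_, ?_⟩
  · rw [le_div_iff₀ (by positivity), mul_comm]
    have h5 : ((J * J : ℕ) : ℝ) / (b : ℝ) ^ w = m := by
      rw [hm]; push_cast; ring
    rw [h5] at hintL
    linarith
  · intro x hx
    by_contra hrep
    apply hx
    simp only [Set.mem_ofPred_eq]
    have h6 : ∑ i ∈ I1, ∑ j ∈ I2, G (b ^ w) (wd b w i x) (wd b w j x) = -m := by
      have h7 : ∀ i ∈ I1, ∑ j ∈ I2, G (b ^ w) (wd b w i x) (wd b w j x) =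
          -((J : ℝ) / (b : ℝ) ^ w) := by
        intro i hi
        have h8 : ∀ j ∈ I2, G (b ^ w) (wd b w i x) (wd b w j x) = -(1 / (b : ℝ) ^ w) := by
          intro j hj
          unfold G
          rw [if_neg]
          · push_cast; ring
          · intro he
            exact hrep ⟨i, hN1 i hi, j, hN2 j hj, hlt i hi j hj, he⟩
        rw [sum_congr rfl h8, sum_const, hc2, nsmul_eq_mul]
        ring
      rw [sum_congr rfl h7, sum_const, hc1, nsmul_eq_mul, hm]
      ring
    unfold Y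
    rw [h6]
    simp

theorem c2_of (h1 : St_TR) (h2 : St_L1) (h3 : St_L3) : St_C2 := by
  classical
  intro B A S hT ε₀ hε₀
  set ε : ℝ := min ε₀ (1 / 2) with hεdef
  have hε : 0 < ε := lt_min hε₀ (by norm_num)
  have hε1 : ε ≤ 1 / 2 := min_le_right _ _
  have hε2 : ε ≤ ε₀ := min_le_left _ _
  obtain ⟨δ1, hδ1, M1, hM1⟩ := h1 B A S hT 2 4
  obtain ⟨δ2, hδ2, M2, hM2⟩ := h1 B A S hT 4 4
  obtain ⟨N1, hN1⟩ := eventually_atTop.1 (tendsto_natCast_atTop_atTop.eventually (ev_N B ε hε))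
  have hlog : Tendsto (fun M : ℕ => log (M : ℝ)) atTop atTop :=
    Real.tendsto_log_atTop.comp tendsto_natCast_atTop_atTop
  have e1 : ∀ᶠ M : ℕ in atTop, (M : ℝ) ^ (-δ1) ≤ ε / 4 :=
    ((tendsto_rpow_neg_atTop hδ1).comp tendsto_natCast_atTop_atTop).eventually
      (eventually_le_nhds (by positivity))
  have e2 : ∀ᶠ M : ℕ in atTop, (M : ℝ) ^ (-δ2) ≤ ε / 4 :=
    ((tendsto_rpow_neg_atTop hδ2).comp tendsto_natCast_atTop_atTop).eventually
      (eventually_le_nhds (by positivity))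
  have e3 : ∀ᶠ M : ℕ in atTop, 1 ≤ log (M : ℝ) := hlog.eventually_ge_atTop 1
  have e4 : ∀ᶠ M : ℕ in atTop, (B : ℝ) * |A| ^ 3 ≤ log (M : ℝ) := hlog.eventually_ge_atTop _
  obtain ⟨M0, hM0⟩ := eventually_atTop.1 (e1.and (e2.and (e3.and (e4.and
    ((eventually_ge_atTop M1).and ((eventually_ge_atTop M2).and (eventually_ge_atTop 1)))))))
  refine ⟨N1, M0, fun M hM P hP b N hb2 hbB hN hNA => ?_⟩
  obtain ⟨m1, m2, m3, m4, m5, m6, m7⟩ := hM0 M hM
  obtain ⟨n1, n2, n3, n4, n5⟩ := hN1 N hN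
  have : IsProbabilityMeasure P := hT.1 M m7 P hP
  set L : ℝ := log M with hL
  have hL0 : 0 < L := by linarith
  have hb1 : 1 ≤ b := by omega
  have hbR : (2 : ℝ) ≤ b := by exact_mod_cast hb2
  have hbBR : (b : ℝ) ≤ B := by exact_mod_cast hbB
  have hlogb : 0 < log (b : ℝ) := Real.log_pos (by linarith)
  have hlogb2 : 1 / 2 ≤ log (b : ℝ) := by
    have h4 := Real.log_two_gt_d9
    have h5 := Real.log_le_log (by norm_num) hbR
    linarith
  have hN0 : (0 : ℝ) < N := by linarith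
  have hlogN : 1 ≤ log (N : ℝ) := by
    rw [Real.le_log_iff_exp_le hN0]
    have := Real.exp_one_lt_d9
    linarith
  have hlogbN : log (b : ℝ) ≤ log (N : ℝ) := Real.log_le_log (by linarith) (by linarith)
  have hNA' : (N : ℝ) ≤ |A| * L := by
    calc (N : ℝ) ≤ A * L := hNA
      _ ≤ |A| * L := by
          gcongr
          exact le_abs_self A
  have hN3 : (N : ℝ) ^ 3 * B ≤ L ^ 4 := by
    calc (N : ℝ) ^ 3 * B ≤ (|A| * L) ^ 3 * B := by gcongr
      _ = (B * |A| ^ 3) * L ^ 3 := by ring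
      _ ≤ L * L ^ 3 := by gcongr
      _ = L ^ 4 := by ring
  -- long words
  set w1 : ℕ := ⌈(2 + ε) * log N / log b⌉₊ with hw1
  have a1 : (2 + ε) * log N ≤ w1 * log b := by
    have := Nat.le_ceil ((2 + ε) * log N / log b)
    rwa [div_le_iff₀ hlogb] at this
  have a2 : (w1 : ℝ) * log b ≤ 3 * log N + log b := by
    have := (Nat.ceil_lt_add_one (show 0 ≤ (2 + ε) * log N / log b by positivity)).le
    rw [← hw1] at this
    calc (w1 : ℝ) * log b ≤ ((2 + ε) * log N / log b + 1) * log b := by gcongr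
      _ = (2 + ε) * log N + log b := by field_simp
      _ ≤ 3 * log N + log b := by nlinarith
  have a3 : (N : ℝ) ^ 2 * N ^ ε ≤ (b : ℝ) ^ w1 := by
    rw [pow_eq_exp hb1, Real.rpow_def_of_pos hN0, ← Real.exp_log (show 0 < (N : ℝ) ^ 2 by positivity),
      ← Real.exp_add, Real.log_pow]
    refine Real.exp_le_exp.2 ?_
    push_cast
    linarith
  have a4 : (b : ℝ) ^ w1 ≤ L ^ 4 := by
    refine le_trans ?_ hN3
    calc (b : ℝ) ^ w1 ≤ (N : ℝ) ^ 3 * b := by
          rw [pow_eq_exp hb1]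
          calc rexp (w1 * log b) ≤ rexp (3 * log N + log b) := Real.exp_le_exp.2 a2
            _ = (N : ℝ) ^ 3 * b := by
                rw [Real.exp_add, Real.exp_log (by positivity)]
                congr 1
                rw [show (3 : ℝ) * log N = ((3 : ℕ) : ℝ) * log N by norm_num, Real.exp_nat_mul,
                  Real.exp_log hN0]
      _ ≤ (N : ℝ) ^ 3 * B := by gcongr
  obtain ⟨U1, hU1m, hU1, hU1x⟩ := upper_part h3 P (b := b) (w := w1) (N := N) hb1
    (hM1 M m5 P hP b w1 N hb1 hbB hNA a4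
      (fun n v => if n 0 < n 1 ∧ v 0 = v 1 then (1 : ℝ) else 0) (by
        intro n c
        split_ifs <;> norm_num))
  have hU1' : P.real U1 ≤ ε / 2 := by
    have h4 : (N : ℝ) ^ 2 / (b : ℝ) ^ w1 ≤ ε / 4 := by
      have hNε : 0 < (N : ℝ) ^ ε := Real.rpow_pos_of_pos hN0 _
      calc (N : ℝ) ^ 2 / (b : ℝ) ^ w1 ≤ (N : ℝ) ^ 2 / ((N : ℝ) ^ 2 * N ^ ε) := by gcongr
        _ = (N : ℝ) ^ (-ε) := by
            rw [Real.rpow_neg hN0.le]
            field_simp
        _ ≤ ε / 4 := n4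
    linarith
  -- short words
  set w2 : ℕ := ⌊(2 - ε) * log N / log b⌋₊ with hw2
  have hx0 : 0 ≤ (2 - ε) * log N / log b := by
    have : 0 ≤ 2 - ε := by linarith
    positivity
  have b1 : (w2 : ℝ) * log b ≤ (2 - ε) * log N := by
    have := Nat.floor_le hx0
    rwa [← hw2, le_div_iff₀ hlogb] at this
  have b2 : 1 ≤ w2 := by
    rw [hw2, Nat.one_le_floor_iff, le_div_iff₀ hlogb]
    nlinarith
  have b3 : (w2 : ℝ) ≤ 4 * log N := by
    have hw0 : (0 : ℝ) ≤ w2 := Nat.cast_nonneg w2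
    nlinarith
  have b4 : (b : ℝ) ^ w2 * N ^ ε ≤ (N : ℝ) ^ 2 := by
    rw [pow_eq_exp hb1, Real.rpow_def_of_pos hN0, ← Real.exp_log (show 0 < (N : ℝ) ^ 2 by positivity),
      ← Real.exp_add, Real.log_pow]
    refine Real.exp_le_exp.2 ?_
    push_cast
    linarith
  have hNε : 0 < (N : ℝ) ^ ε := Real.rpow_pos_of_pos hN0 _
  have hNε1 : 1 ≤ (N : ℝ) ^ ε := Real.one_le_rpow (by linarith) hε.le
  have b5 : (b : ℝ) ^ w2 ≤ L ^ 4 := by
    refine le_trans ?_ hN3
    calc (b : ℝ) ^ w2 ≤ (b : ℝ) ^ w2 * N ^ ε := le_mul_of_one_le_right (by positivity) hNε1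
      _ ≤ (N : ℝ) ^ 2 := b4
      _ ≤ (N : ℝ) ^ 3 * B := by
          have h7 : (1 : ℝ) ≤ N * B := by nlinarith
          calc (N : ℝ) ^ 2 ≤ (N : ℝ) ^ 2 * (N * B) := le_mul_of_one_le_right (by positivity) h7
            _ = (N : ℝ) ^ 3 * B := by ring
  set J : ℕ := N / (2 * w2) with hJ
  have hw2R : (1 : ℝ) ≤ w2 := by exact_mod_cast b2
  have c1 : (N : ℝ) / (4 * w2) ≤ J := by
    have h4 : (N : ℝ) / ((2 * w2 : ℕ) : ℝ) - 1 ≤ J := by
      have h5 : N < (N / (2 * w2) + 1) * (2 * w2) := by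
        have := Nat.lt_mul_div_succ N (show 0 < 2 * w2 by omega)
        rw [mul_comm]
        exact this
      have h6 : (N : ℝ) < ((J : ℝ) + 1) * ((2 * w2 : ℕ) : ℝ) := by exact_mod_cast h5
      have h7 : (0 : ℝ) < ((2 * w2 : ℕ) : ℝ) := by
        have : 0 < 2 * w2 := by omega
        exact_mod_cast this
      rw [← div_lt_iff₀ h7] at h6
      linarith
    have h5 : 1 ≤ (N : ℝ) / (4 * w2) := by
      rw [one_le_div (by positivity)]
      linarith
    have h6 : (N : ℝ) / ((2 * w2 : ℕ) : ℝ) = 2 * (N / (4 * w2)) := by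
      push_cast
      field_simp
      ring
    rw [h6] at h4
    linarith
  have c2 : 1 ≤ J := by
    have h5 : 1 ≤ (N : ℝ) / (4 * w2) := by
      rw [one_le_div (by positivity)]
      linarith
    have h6 : (1 : ℝ) ≤ J := h5.trans c1
    exact_mod_cast h6
  have c3 : w2 * (2 * J) ≤ N := by
    calc w2 * (2 * J) = (2 * w2) * (N / (2 * w2)) := by rw [hJ]; ring
      _ ≤ N := Nat.mul_div_le N (2 * w2)
  obtain ⟨U2, hU2m, hU2, hU2x⟩ := lower_part h2 P (b := b) (w := w2) (N := N) (J := J) hb1 b2 c2 c3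
    (fun F hF => hM2 M m6 P hP b w2 N hb1 hbB hNA b5 F hF)
  have hU2' : P.real U2 ≤ ε / 2 := by
    set m : ℝ := (J : ℝ) ^ 2 / (b : ℝ) ^ w2 with hm
    have hbw : (0 : ℝ) < (b : ℝ) ^ w2 := by positivity
    have h4 : 4 / ε ≤ m := by
      have hlN : 0 < log (N : ℝ) := by linarith
      have h5 : (N : ℝ) / (16 * log N) ≤ J := by
        refine le_trans ?_ c1
        exact div_le_div_of_nonneg_left hN0.le (by positivity) (by linarith)
      have h6 : (N : ℝ) ^ ε / (256 * log N ^ 2) ≤ m := by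
        rw [hm, le_div_iff₀ hbw]
        calc (N : ℝ) ^ ε / (256 * log N ^ 2) * (b : ℝ) ^ w2
            = ((b : ℝ) ^ w2 * N ^ ε) / (256 * log N ^ 2) := by ring
          _ ≤ (N : ℝ) ^ 2 / (256 * log N ^ 2) := by gcongr
          _ = ((N : ℝ) / (16 * log N)) ^ 2 := by
              rw [div_pow, mul_pow]
              norm_num
          _ ≤ (J : ℝ) ^ 2 := by gcongr
      refine le_trans ?_ h6
      rw [le_div_iff₀ (by positivity)]
      exact n5
    have h5 : 1 ≤ m := by
      refine le_trans ?_ h4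
      rw [le_div_iff₀ hε]
      linarith
    have hm0 : 0 < m := by linarith
    have hm4 : 1 / m ≤ ε / 4 := by
      rw [div_le_iff₀ hm0]
      rw [div_le_iff₀ hε] at h4
      linarith
    have hM0 : (0 : ℝ) ≤ (M : ℝ) ^ (-δ2) := Real.rpow_nonneg (Nat.cast_nonneg M) _
    calc P.real U2 ≤ (m + (M : ℝ) ^ (-δ2)) / m ^ 2 := hU2
      _ = 1 / m + (M : ℝ) ^ (-δ2) / m ^ 2 := by field_simp
      _ ≤ ε / 4 + (M : ℝ) ^ (-δ2) := by
          gcongr
          exact div_le_self hM0 (one_le_pow₀ h5)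
      _ ≤ ε / 2 := by linarith
  refine ⟨U1 ∪ U2, hU1m.union hU2m, ?_, fun x hx => ⟨fun w hw => ?_, fun w hw => ?_⟩⟩
  · calc P.real (U1 ∪ U2) ≤ P.real U1 + P.real U2 := measureReal_union_le _ _
      _ ≤ ε₀ := by linarith
  · intro hrep
    refine hU1x x (fun h => hx (Or.inl h)) (rep_mono hb1 ?_ hrep)
    rw [hw1]
    refine Nat.ceil_le.2 ?_
    rw [div_le_iff₀ hlogb]
    refine le_trans ?_ hw
    gcongr
  · refine rep_mono hb1 ?_ (hU2x x (fun h => hx (Or.inr h)))
    rw [hw2]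
    refine Nat.le_floor ?_
    rw [le_div_iff₀ hlogb]
    refine hw.trans ?_
    gcongr

end Pool.Agent.N407.FS
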