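import Pool.Agent.N407.FS.Occ

/-!
# Project FS: the complexity law (helper407)
-/

set_option autoImplicit false

namespace Pool.Agent.N407.FS

open Finset Real MeasureTheory Filter Topology Pool.Agent.Y933.KD Pool.Agent.N639.FS

/-! ## Overlaps -/

/-- the word `c` followed by the end of `c'`: they overlap in `w - d` digits -/
def Cross (b w c c' : ℕ) : Prop := ∃ d, 1 ≤ d ∧ 2 * d ≤ w ∧ c % b ^ (w - d) = c' / b ^ d

lemma per_inj {b w d : ℕ} (hd : 1 ≤ d) (hdw : d ≤ w) {c c' : ℕ}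
    (hc : c % b ^ (w - d) = c / b ^ d) (hc' : c' % b ^ (w - d) = c' / b ^ d)
    (h : c % b ^ d = c' % b ^ d) : ∀ m ≤ w, c % b ^ m = c' % b ^ m := by
  intro m
  induction m using Nat.strong_induction_on with
  | _ m ih =>
    intro hm
    rcases Nat.lt_or_ge m (d + 1) with hmd | hmd
    · have hdvd : b ^ m ∣ b ^ d := pow_dvd_pow _ (by omega)
      rw [← Nat.mod_mod_of_dvd c hdvd, ← Nat.mod_mod_of_dvd c' hdvd, h]
    · have h1 := ih (m - d) (by omega) (by omega)
      have h2 : b ^ m = b ^ d * b ^ (m - d) := by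
        rw [← pow_add]; congr 1; omega
      have hdvd : b ^ (m - d) ∣ b ^ (w - d) := pow_dvd_pow _ (by omega)
      rw [h2, Nat.mod_mul, Nat.mod_mul, h, ← hc, ← hc', Nat.mod_mod_of_dvd c hdvd,
        Nat.mod_mod_of_dvd c' hdvd, h1]

lemma sum_pow_le {b : ℕ} (hb : 1 ≤ b) (w : ℕ) :
    ∑ d ∈ Icc 1 (w / 2), b ^ d ≤ w * b ^ (w / 2) := by
  calc ∑ d ∈ Icc 1 (w / 2), b ^ d ≤ ∑ _d ∈ Icc 1 (w / 2), b ^ (w / 2) :=
        sum_le_sum fun d hd => Nat.pow_le_pow_right hb (mem_Icc.1 hd).2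
    _ = (w / 2) * b ^ (w / 2) := by
        rw [sum_const, Nat.card_Icc, smul_eq_mul]
        congr 1
    _ ≤ w * b ^ (w / 2) := Nat.mul_le_mul_right _ (Nat.div_le_self _ _)

open Classical in
lemma card_self {b : ℕ} (hb : 1 ≤ b) (w : ℕ) :
    ((range (b ^ w)).filter (fun c => Cross b w c c)).card ≤ w * b ^ (w / 2) := by
  have h1 : (range (b ^ w)).filter (fun c => Cross b w c c) ⊆
      (Icc 1 (w / 2)).biUnion
        (fun d => (range (b ^ w)).filter (fun c => c % b ^ (w - d) = c / b ^ d)) := by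
    intro c hc
    rw [mem_filter] at hc
    obtain ⟨hc1, d, hd1, hd2, hd3⟩ := hc
    rw [mem_biUnion]
    exact ⟨d, mem_Icc.2 ⟨hd1, by omega⟩, mem_filter.2 ⟨hc1, hd3⟩⟩
  refine (card_le_card h1).trans (card_biUnion_le.trans (le_trans ?_ (sum_pow_le hb w)))
  refine sum_le_sum fun d hd => ?_
  rw [mem_Icc] at hd
  have h2 : ((range (b ^ w)).filter (fun c => c % b ^ (w - d) = c / b ^ d)).card ≤
      (range (b ^ d)).card := by
    refine card_le_card_of_injOn (fun c => c % b ^ d) ?_ ?_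
    · intro c _
      simp only [coe_range, Set.mem_Iio]
      exact Nat.mod_lt _ (by positivity)
    · intro c hc c' hc' h
      rw [mem_coe, mem_filter, mem_range] at hc hc'
      have := per_inj hd.1 (by omega) hc.2 hc'.2 h w le_rfl
      rwa [Nat.mod_eq_of_lt hc.1, Nat.mod_eq_of_lt hc'.1] at this
  rwa [card_range] at h2

open Classical in
lemma card_cross {b : ℕ} (hb : 1 ≤ b) (w c : ℕ) :
    ((range (b ^ w)).filter (fun c' => Cross b w c c')).card ≤ w * b ^ (w / 2) := by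
  have h1 : (range (b ^ w)).filter (fun c' => Cross b w c c') ⊆
      (Icc 1 (w / 2)).biUnion
        (fun d => (range (b ^ w)).filter (fun c' => c % b ^ (w - d) = c' / b ^ d)) := by
    intro c' hc
    rw [mem_filter] at hc
    obtain ⟨hc1, d, hd1, hd2, hd3⟩ := hc
    rw [mem_biUnion]
    exact ⟨d, mem_Icc.2 ⟨hd1, by omega⟩, mem_filter.2 ⟨hc1, hd3⟩⟩
  refine (card_le_card h1).trans (card_biUnion_le.trans (le_trans ?_ (sum_pow_le hb w)))
  refine sum_le_sum fun d hd => ?_
  rw [mem_Icc] at hd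
  have h2 : ((range (b ^ w)).filter (fun c' => c % b ^ (w - d) = c' / b ^ d)).card ≤
      (range (b ^ d)).card := by
    refine card_le_card_of_injOn (fun c => c % b ^ d) ?_ ?_
    · intro c _
      simp only [coe_range, Set.mem_Iio]
      exact Nat.mod_lt _ (by positivity)
    · intro u hu v hv h
      rw [mem_coe, mem_filter, mem_range] at hu hv
      simp only at h
      rw [← Nat.div_add_mod u (b ^ d), ← Nat.div_add_mod v (b ^ d), ← hu.2, ← hv.2, h]
  rwa [card_range] at h2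

/-! ## Missing words -/

/-- the words of `W` do not occur -/
def EvM (b w N : ℕ) (W : Finset ℕ) : Set ℝ :=
  {x | ((range N).filter (fun n => wd b w n x ∈ W)).card = 0}

lemma mem_EvM {b w N : ℕ} {W : Finset ℕ} {x : ℝ} :
    x ∈ EvM b w N W ↔ ∀ n < N, wd b w n x ∉ W := by
  unfold EvM
  simp only [Set.mem_ofPred_eq, card_eq_zero, filter_eq_empty_iff, mem_range]

lemma measurableSet_EvM (b w N : ℕ) (W : Finset ℕ) : MeasurableSet (EvM b w N W) := by
  have : EvM b w N W = ⋂ n ∈ range N, (wd b w n) ⁻¹' ((W : Set ℕ)ᶜ) := by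
    ext x
    rw [mem_EvM]
    simp
  rw [this]
  exact Finset.measurableSet_biInter _ fun n _ =>
    (measurable_wd b w n) (MeasurableSet.of_discrete)

lemma EvM_pair (b w N c c' : ℕ) :
    EvM b w N {c, c'} = EvM b w N {c} ∩ EvM b w N {c'} := by
  ext x
  simp only [Set.mem_inter_iff, mem_EvM, mem_insert, mem_singleton, not_or]
  exact ⟨fun h => ⟨fun n hn => (h n hn).1, fun n hn => (h n hn).2⟩,
    fun h n hn => ⟨h.1 n hn, h.2 n hn⟩⟩

/-- the number of the words which do not occur -/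
noncomputable def ms (b w N : ℕ) (x : ℝ) : ℝ :=
  ∑ c ∈ range (b ^ w), (EvM b w N {c}).indicator (1 : ℝ → ℝ) x

lemma dw_add_ms {b : ℕ} (hb : 1 ≤ b) (w N : ℕ) (x : ℝ) :
    (dw b w N x : ℝ) + ms b w N x = (b : ℝ) ^ w := by
  classical
  set D : Finset ℕ := (range N).image (fun n => wd b w n x) with hD
  have hDs : D ⊆ range (b ^ w) := by
    intro c hc
    obtain ⟨n, _, rfl⟩ := mem_image.1 hc
    exact mem_range.2 (wd_lt hb _ _ _)
  have h1 : ∀ c, (EvM b w N {c}).indicator (1 : ℝ → ℝ) x = if c ∉ D then (1 : ℝ) else 0 := by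
    intro c
    by_cases hc : c ∈ D
    · rw [if_neg (not_not.2 hc), Set.indicator_of_notMem]
      intro h
      rw [mem_EvM] at h
      obtain ⟨n, hn, he⟩ := mem_image.1 hc
      exact h n (mem_range.1 hn) (mem_singleton.2 he)
    · rw [if_pos hc, Set.indicator_of_mem]
      · rfl
      · rw [mem_EvM]
        intro n hn h
        exact hc (mem_image.2 ⟨n, mem_range.2 hn, mem_singleton.1 h⟩)
  have h2 : ms b w N x = ((range (b ^ w) \ D).card : ℕ) := by
    unfold ms
    simp only [h1]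
    rw [sum_boole, sdiff_eq_filter]
  have h3 : (range (b ^ w) \ D).card + D.card = b ^ w := by
    rw [card_sdiff_add_card_eq_card hDs, card_range]
  have h4 : dw b w N x = D.card := rfl
  rw [h2, h4]
  have h5 : ((D.card + (range (b ^ w) \ D).card : ℕ) : ℝ) = ((b ^ w : ℕ) : ℝ) := by
    rw [add_comm, h3]
  push_cast at h5
  exact h5

lemma dw_le_N (b w N : ℕ) (x : ℝ) : dw b w N x ≤ N := by
  unfold dw
  exact card_image_le.trans (card_range N).le

/-- the number of words increases with their length -/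
lemma dw_mono {b : ℕ} (hb : 1 ≤ b) {w w' : ℕ} (h : w ≤ w') (N : ℕ) (x : ℝ) :
    dw b w N x ≤ dw b w' N x := by
  unfold dw
  have h1 : (range N).image (fun n => wd b w n x) =
      ((range N).image (fun n => wd b w' n x)).image (fun c => c / b ^ (w' - w)) := by
    rw [image_image]
    refine image_congr fun n _ => ?_
    simp only [Function.comp]
    exact wd_prefix hb h n x
  rw [h1]
  exact card_image_le

/-- ... but not too fast -/
lemma dw_le_mul {b : ℕ} (hb : 1 ≤ b) {w w' : ℕ} (h : w ≤ w') (N : ℕ) (x : ℝ) :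
    dw b w' N x ≤ b ^ (w' - w) * dw b w N x := by
  unfold dw
  have h1 : (range N).image (fun n => wd b w n x) =
      ((range N).image (fun n => wd b w' n x)).image (fun c => c / b ^ (w' - w)) := by
    rw [image_image]
    refine image_congr fun n _ => ?_
    simp only [Function.comp]
    exact wd_prefix hb h n x
  rw [h1]
  refine card_le_mul_card_image _ _ fun a _ => ?_
  have hpos : 0 < b ^ (w' - w) := by positivity
  have h2 : {c ∈ (range N).image (fun n => wd b w' n x) | c / b ^ (w' - w) = a} ⊆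
      Ico (a * b ^ (w' - w)) (a * b ^ (w' - w) + b ^ (w' - w)) := by
    intro c hc
    rw [mem_filter] at hc
    rw [mem_Ico]
    have := hc.2
    rw [Nat.div_eq_iff hpos] at this
    omega
  refine (card_le_card h2).trans ?_
  rw [Nat.card_Ico]
  omega

/-- the share of the missing words increases with their length -/
lemma ms_mono {b : ℕ} (hb : 1 ≤ b) {w w' : ℕ} (h : w ≤ w') (N : ℕ) (x : ℝ) :
    ms b w N x / (b : ℝ) ^ w ≤ ms b w' N x / (b : ℝ) ^ w' := by
  have hb' : (0 : ℝ) < b := by exact_mod_cast hb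
  have h1 := dw_add_ms hb w N x
  have h2 := dw_add_ms hb w' N x
  have h3 : (dw b w' N x : ℝ) ≤ (b : ℝ) ^ (w' - w) * dw b w N x := by
    exact_mod_cast dw_le_mul hb h N x
  have h4 : (b : ℝ) ^ w' = (b : ℝ) ^ (w' - w) * (b : ℝ) ^ w := by
    rw [← pow_add]; congr 1; omega
  rw [div_le_div_iff₀ (by positivity) (by positivity), h4]
  have h5 : (0 : ℝ) < (b : ℝ) ^ w := by positivity
  have h6 : (b : ℝ) ^ (w' - w) * ms b w N x ≤ ms b w' N x := by
    have e1 : ms b w N x = (b : ℝ) ^ w - dw b w N x := by linarith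
    have e2 : ms b w' N x = (b : ℝ) ^ w' - dw b w' N x := by linarith
    rw [e1, e2, h4]
    linarith
  calc ms b w N x * ((b : ℝ) ^ (w' - w) * (b : ℝ) ^ w)
      = ((b : ℝ) ^ (w' - w) * ms b w N x) * (b : ℝ) ^ w := by ring
    _ ≤ ms b w' N x * (b : ℝ) ^ w := by gcongr

lemma measurable_ms (b w N : ℕ) : Measurable (ms b w N) := by
  unfold ms
  exact Finset.measurable_fun_sum _ fun c _ => measurable_one.indicator (measurableSet_EvM _ _ _ _)

/-! ## Second moment -/

/-- the covariance of two missing words -/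
lemma cov_eq (P : Measure ℝ) [IsProbabilityMeasure P] (b w N c c' : ℕ) (e : ℝ) :
    ∫ x, ((EvM b w N {c}).indicator (1 : ℝ → ℝ) x - e) *
      ((EvM b w N {c'}).indicator (1 : ℝ → ℝ) x - e) ∂P =
      P.real (EvM b w N {c, c'}) - e * P.real (EvM b w N {c}) - e * P.real (EvM b w N {c'}) +
        e ^ 2 := by
  have hi : ∀ W : Finset ℕ, Integrable (fun x => (EvM b w N W).indicator (1 : ℝ → ℝ) x) P :=
    fun W => (integrable_const (1 : ℝ)).indicator (measurableSet_EvM _ _ _ _)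
  have h1 : ∀ x, ((EvM b w N {c}).indicator (1 : ℝ → ℝ) x - e) *
      ((EvM b w N {c'}).indicator (1 : ℝ → ℝ) x - e) =
      (EvM b w N {c, c'}).indicator (1 : ℝ → ℝ) x - e * (EvM b w N {c}).indicator (1 : ℝ → ℝ) x -
        e * (EvM b w N {c'}).indicator (1 : ℝ → ℝ) x + e ^ 2 := by
    intro x
    rw [EvM_pair]
    by_cases h : x ∈ EvM b w N {c} <;> by_cases h' : x ∈ EvM b w N {c'} <;>
      simp [h, h'] <;> ring
  simp only [h1]
  rw [integral_add, integral_sub, integral_sub, MeasureTheory.integral_const_mul,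
    MeasureTheory.integral_const_mul, integral_indicator_one (measurableSet_EvM _ _ _ _),
    integral_indicator_one (measurableSet_EvM _ _ _ _),
    integral_indicator_one (measurableSet_EvM _ _ _ _)]
  · simp
  · exact hi _
  · exact (hi _).const_mul _
  · exact (hi _).sub ((hi _).const_mul _)
  · exact (hi _).const_mul _
  · exact ((hi _).sub ((hi _).const_mul _)).sub ((hi _).const_mul _)
  · exact integrable_const _

open Classical in
/-- the second moment of the number of missing words -/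
lemma second_moment (P : Measure ℝ) [IsProbabilityMeasure P] {b w N : ℕ} (hb : 1 ≤ b)
    (hw : 1 ≤ w) {e ε : ℝ} (he0 : 0 ≤ e) (he1 : e ≤ 1) (hε : 0 ≤ ε)
    (hone : ∀ c < b ^ w, NoOv b w {c} → |P.real (EvM b w N {c}) - e| ≤ ε)
    (htwo : ∀ c < b ^ w, ∀ c' < b ^ w, c ≠ c' → NoOv b w {c, c'} →
      |P.real (EvM b w N {c, c'}) - e ^ 2| ≤ ε) :
    ∫ x, (ms b w N x - (b : ℝ) ^ w * e) ^ 2 ∂P ≤
      3 * ε * ((b : ℝ) ^ w) ^ 2 + 5 * (b : ℝ) ^ w * (w * (b : ℝ) ^ (w / 2)) := by
  set q : ℕ := b ^ w with hq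
  have hqR : ((q : ℕ) : ℝ) = (b : ℝ) ^ w := by rw [hq]; push_cast; rfl
  set f : ℕ → ℝ → ℝ := fun c x => (EvM b w N {c}).indicator (1 : ℝ → ℝ) x - e with hf
  have h1 : ∀ x, (ms b w N x - (b : ℝ) ^ w * e) ^ 2 =
      ∑ c ∈ range q, ∑ c' ∈ range q, f c x * f c' x := by
    intro x
    have h2 : ms b w N x - (b : ℝ) ^ w * e = ∑ c ∈ range q, f c x := by
      rw [hf]
      simp only
      rw [sum_sub_distrib, sum_const, card_range, nsmul_eq_mul, hqR]
      rfl
    rw [h2, pow_two, sum_mul_sum]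
  have hf1 : ∀ c x, |f c x| ≤ 1 := by
    intro c x
    rw [hf]
    simp only
    rw [abs_le]
    by_cases h : x ∈ EvM b w N {c}
    · rw [Set.indicator_of_mem h, Pi.one_apply]
      constructor <;> linarith
    · rw [Set.indicator_of_notMem h]
      constructor <;> linarith
  have hfm : ∀ c, Measurable (f c) := fun c =>
    (measurable_one.indicator (measurableSet_EvM _ _ _ _)).sub_const _
  have hff : ∀ c c' x, |f c x * f c' x| ≤ 1 := by
    intro c c' x
    rw [abs_mul]
    exact mul_le_one₀ (hf1 _ _) (abs_nonneg _) (hf1 _ _)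
  have hi : ∀ c c', Integrable (fun x => f c x * f c' x) P := by
    intro c c'
    refine Integrable.of_bound (C := 1) ((hfm c).mul (hfm c')).aestronglyMeasurable
      (Eventually.of_forall fun x => ?_)
    rw [Real.norm_eq_abs]
    exact hff _ _ _
  have hcov1 : ∀ c c', ∫ x, f c x * f c' x ∂P ≤ 1 := by
    intro c c'
    calc ∫ x, f c x * f c' x ∂P ≤ ∫ _x, (1 : ℝ) ∂P :=
          integral_mono (hi c c') (integrable_const _) fun x => (abs_le.1 (hff c c' x)).2
      _ = 1 := by simp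
  simp only [h1]
  rw [integral_finsetSum _ fun c _ => integrable_finsetSum _ fun c' _ => hi c c']
  -- the bound of every covariance
  have hterm : ∀ c ∈ range q, ∀ c' ∈ range q, ∫ x, f c x * f c' x ∂P ≤
      3 * ε + (if c = c' then (1 : ℝ) else 0) + (if Cross b w c c then (1 : ℝ) else 0) +
        (if Cross b w c' c' then (1 : ℝ) else 0) + (if Cross b w c c' then (1 : ℝ) else 0) +
        (if Cross b w c' c then (1 : ℝ) else 0) := by
    intro c hc c' hc'
    rw [mem_range] at hc hc'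
    have z1 : 0 ≤ (if c = c' then (1 : ℝ) else 0) := by split_ifs <;> norm_num
    have z2 : 0 ≤ (if Cross b w c c then (1 : ℝ) else 0) := by split_ifs <;> norm_num
    have z3 : 0 ≤ (if Cross b w c' c' then (1 : ℝ) else 0) := by split_ifs <;> norm_num
    have z4 : 0 ≤ (if Cross b w c c' then (1 : ℝ) else 0) := by split_ifs <;> norm_num
    have z5 : 0 ≤ (if Cross b w c' c then (1 : ℝ) else 0) := by split_ifs <;> norm_num
    have hle1 := hcov1 c c'
    by_cases g1 : c = c'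
    · rw [if_pos g1]; linarith
    by_cases g2 : Cross b w c c
    · rw [if_pos g2]; linarith
    by_cases g3 : Cross b w c' c'
    · rw [if_pos g3]; linarith
    by_cases g4 : Cross b w c c'
    · rw [if_pos g4]; linarith
    by_cases g5 : Cross b w c' c
    · rw [if_pos g5]; linarith
    have n1 : NoOv b w {c} := by
      intro u hu v hv d hd1 hd2 he
      rw [mem_singleton] at hu hv
      subst hu; subst hv
      exact g2 ⟨d, hd1, hd2, he⟩
    have n2 : NoOv b w {c'} := by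
      intro u hu v hv d hd1 hd2 he
      rw [mem_singleton] at hu hv
      subst hu; subst hv
      exact g3 ⟨d, hd1, hd2, he⟩
    have n3 : NoOv b w {c, c'} := by
      intro u hu v hv d hd1 hd2 he
      rw [mem_insert, mem_singleton] at hu hv
      rcases hu with rfl | rfl <;> rcases hv with rfl | rfl
      · exact g2 ⟨d, hd1, hd2, he⟩
      · exact g4 ⟨d, hd1, hd2, he⟩
      · exact g5 ⟨d, hd1, hd2, he⟩
      · exact g3 ⟨d, hd1, hd2, he⟩
    have p1 := (abs_le.1 (hone c hc n1)).1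
    have p2 := (abs_le.1 (hone c' hc' n2)).1
    have p3 := (abs_le.1 (htwo c hc c' hc' g1 n3)).2
    have h5 := cov_eq P b w N c c' e
    have h6 : ∫ x, f c x * f c' x ∂P ≤ 3 * ε := by
      rw [hf]
      simp only
      rw [h5]
      nlinarith
    linarith
  have hself := card_self hb w
  have hselfR : ∑ c ∈ range q, (if Cross b w c c then (1 : ℝ) else 0) ≤
      w * (b : ℝ) ^ (w / 2) := by
    rw [sum_boole]
    exact_mod_cast hself
  have hcrossR : ∀ c, ∑ c' ∈ range q, (if Cross b w c c' then (1 : ℝ) else 0) ≤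
      w * (b : ℝ) ^ (w / 2) := by
    intro c
    rw [sum_boole]
    exact_mod_cast card_cross hb w c
  have hbw2 : (1 : ℝ) ≤ w * (b : ℝ) ^ (w / 2) := by
    have h7 : (1 : ℝ) ≤ (b : ℝ) ^ (w / 2) := one_le_pow₀ (by exact_mod_cast hb)
    have h8 : (1 : ℝ) ≤ w := by exact_mod_cast hw
    nlinarith
  calc ∑ c ∈ range q, ∫ x, ∑ c' ∈ range q, f c x * f c' x ∂P
      = ∑ c ∈ range q, ∑ c' ∈ range q, ∫ x, f c x * f c' x ∂P :=
        sum_congr rfl fun c _ => integral_finsetSum _ fun c' _ => hi c c'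
    _ ≤ ∑ c ∈ range q, ∑ c' ∈ range q,
        (3 * ε + (if c = c' then (1 : ℝ) else 0) + (if Cross b w c c then (1 : ℝ) else 0) +
        (if Cross b w c' c' then (1 : ℝ) else 0) + (if Cross b w c c' then (1 : ℝ) else 0) +
        (if Cross b w c' c then (1 : ℝ) else 0)) :=
        sum_le_sum fun c hc => sum_le_sum fun c' hc' => hterm c hc c' hc'
    _ = 3 * ε * q * q + q + q * ∑ c ∈ range q, (if Cross b w c c then (1 : ℝ) else 0) +
        q * ∑ c ∈ range q, (if Cross b w c c then (1 : ℝ) else 0) +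
        ∑ c ∈ range q, ∑ c' ∈ range q, (if Cross b w c c' then (1 : ℝ) else 0) +
        ∑ c ∈ range q, ∑ c' ∈ range q, (if Cross b w c' c then (1 : ℝ) else 0) := by
        simp only [sum_add_distrib, sum_const, card_range, nsmul_eq_mul]
        have h9 : ∑ c ∈ range q, ∑ c' ∈ range q, (if c = c' then (1 : ℝ) else 0) = q := by
          rw [sum_congr rfl fun c hc => by rw [sum_ite_eq, if_pos hc]]
          simp
        rw [h9, ← mul_sum]
        ring
    _ ≤ 3 * ε * q * q + q * (w * (b : ℝ) ^ (w / 2)) + q * (w * (b : ℝ) ^ (w / 2)) +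
        q * (w * (b : ℝ) ^ (w / 2)) + q * (w * (b : ℝ) ^ (w / 2)) +
        q * (w * (b : ℝ) ^ (w / 2)) := by
        have h10 : ∑ c ∈ range q, ∑ c' ∈ range q, (if Cross b w c c' then (1 : ℝ) else 0) ≤
            q * (w * (b : ℝ) ^ (w / 2)) := by
          calc _ ≤ ∑ _c ∈ range q, (w * (b : ℝ) ^ (w / 2)) := sum_le_sum fun c _ => hcrossR c
            _ = _ := by rw [sum_const, card_range, nsmul_eq_mul]
        have h11 : ∑ c ∈ range q, ∑ c' ∈ range q, (if Cross b w c' c then (1 : ℝ) else 0) ≤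
            q * (w * (b : ℝ) ^ (w / 2)) := by
          rw [sum_comm]
          exact h10
        have h12 : (q : ℝ) ≤ q * (w * (b : ℝ) ^ (w / 2)) :=
          le_mul_of_one_le_right (Nat.cast_nonneg q) hbw2
        gcongr
    _ = 3 * ε * ((b : ℝ) ^ w) ^ 2 + 5 * (b : ℝ) ^ w * (w * (b : ℝ) ^ (w / 2)) := by
        rw [hqR]; ring

lemma ev_w (ε : ℝ) (hε : 0 < ε) : ∃ w0 : ℕ, 1 ≤ w0 ∧ ∀ w ≥ w0,
    5 * (w : ℝ) ≤ ε * 2 ^ (w / 2) := by
  have h1 : Tendsto (fun n : ℕ => (n : ℝ) ^ 1 / 2 ^ n) atTop (𝓝 0) :=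
    tendsto_pow_const_div_const_pow_of_one_lt 1 (by norm_num)
  have h2 : ∀ᶠ n : ℕ in atTop, (n : ℝ) ^ 1 / 2 ^ n ≤ ε / 15 :=
    h1.eventually (eventually_le_nhds (by positivity))
  obtain ⟨n0, hn0⟩ := eventually_atTop.1 (h2.and (eventually_ge_atTop 1))
  refine ⟨2 * n0 + 1, by omega, fun w hw => ?_⟩
  have h3 := hn0 (w / 2) (by omega)
  have h4 : (0 : ℝ) < 2 ^ (w / 2) := by positivity
  rw [pow_one, div_le_iff₀ h4] at h3
  have h5 : (w : ℝ) ≤ 3 * ((w / 2 : ℕ) : ℝ) := by
    have : w ≤ 3 * (w / 2) := by omega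
    exact_mod_cast this
  nlinarith [h3.1]

/-- words of the length of `log N` -/
lemma middle (h5 : St_C3) (B : ℕ) (A : ℝ) (S : ℕ → Set (Measure ℝ)) (hT : Tests B A S)
    {Λ ε ρ : ℝ} (hΛ : 0 < Λ) (hε : 0 < ε) (hρ : 0 < ρ) :
    ∃ N0 M0 : ℕ, ∀ M : ℕ, M0 ≤ M → ∀ P ∈ S M, ∀ b w N : ℕ, 2 ≤ b → b ≤ B → N0 ≤ N →
    (N : ℝ) ≤ A * log M → (N : ℝ) ≤ Λ * (b : ℝ) ^ w → (b : ℝ) ^ w ≤ Λ * N →
    ∃ U : Set ℝ, MeasurableSet U ∧ P.real U ≤ ρ ∧ ∀ x ∉ U,
      |ms b w N x - (b : ℝ) ^ w * exp (-(N / (b : ℝ) ^ w))| ≤ ε * (b : ℝ) ^ w := by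
  set ε' : ℝ := ρ * ε ^ 2 / 4 with hε'
  have hε'0 : 0 < ε' := by positivity
  obtain ⟨N1, M1, h1⟩ := h5 B A S hT 1 0 Λ ε' hΛ hε'0
  obtain ⟨N2, M2, h2⟩ := h5 B A S hT 2 0 Λ ε' hΛ hε'0
  obtain ⟨w0, hw01, hw0⟩ := ev_w ε' hε'0
  obtain ⟨N3, hN3⟩ := exists_nat_gt (Λ * (B : ℝ) ^ w0)
  refine ⟨max (max N1 N2) N3, max (max M1 M2) 1,
    fun M hM P hP b w N hb2 hbB hN hNA hNq hqN => ?_⟩
  have hb1 : 1 ≤ b := by omega
  have hM1 : M1 ≤ M := le_trans (le_max_left _ _) (le_trans (le_max_left _ _) hM)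
  have hM2 : M2 ≤ M := le_trans (le_max_right _ _) (le_trans (le_max_left _ _) hM)
  have hM0 : 1 ≤ M := le_trans (le_max_right _ _) hM
  have hN1 : N1 ≤ N := le_trans (le_max_left _ _) (le_trans (le_max_left _ _) hN)
  have hN2 : N2 ≤ N := le_trans (le_max_right _ _) (le_trans (le_max_left _ _) hN)
  have hN3' : N3 ≤ N := le_trans (le_max_right _ _) hN
  have : IsProbabilityMeasure P := hT.1 M hM0 P hP
  have hbR : (2 : ℝ) ≤ b := by exact_mod_cast hb2
  have hb0 : (0 : ℝ) < b := by linarith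
  -- the length is large
  have hw : w0 ≤ w := by
    by_contra hcon
    push Not at hcon
    have h3 : (b : ℝ) ^ w ≤ (B : ℝ) ^ w0 := by
      calc (b : ℝ) ^ w ≤ (b : ℝ) ^ w0 := pow_le_pow_right₀ (by linarith) hcon.le
        _ ≤ (B : ℝ) ^ w0 := by
            have : (b : ℝ) ≤ B := by exact_mod_cast hbB
            gcongr
    have h4 : (N3 : ℝ) ≤ N := by exact_mod_cast hN3'
    have h6 : Λ * (b : ℝ) ^ w ≤ Λ * (B : ℝ) ^ w0 := by gcongr
    linarith
  set e : ℝ := exp (-(N / (b : ℝ) ^ w)) with he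
  have he0 : 0 ≤ e := (Real.exp_pos _).le
  have he1 : e ≤ 1 := by
    rw [he, Real.exp_le_one_iff]
    have : 0 ≤ (N : ℝ) / (b : ℝ) ^ w := by positivity
    linarith
  have hone : ∀ c < b ^ w, NoOv b w {c} → |P.real (EvM b w N {c}) - e| ≤ ε' := by
    intro c hc hno
    have h3 := h1 M hM1 P hP b w N {c} hb2 hbB hN1 hNA hNq hqN
      (by simpa using hc) (by simp) hno
    have h4 : exp (-((1 : ℕ) * (N / (b : ℝ) ^ w))) * ((1 : ℕ) * (N / (b : ℝ) ^ w)) ^ 0 /
        (Nat.factorial 0 : ℕ) = e := by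
      simp [he]
    rw [h4] at h3
    exact h3
  have htwo : ∀ c < b ^ w, ∀ c' < b ^ w, c ≠ c' → NoOv b w {c, c'} →
      |P.real (EvM b w N {c, c'}) - e ^ 2| ≤ ε' := by
    intro c hc c' hc' hne hno
    have h3 := h2 M hM2 P hP b w N {c, c'} hb2 hbB hN2 hNA hNq hqN
      (by
        intro u hu
        rw [mem_insert, mem_singleton] at hu
        rcases hu with rfl | rfl
        · exact mem_range.2 hc
        · exact mem_range.2 hc') (card_pair hne) hno
    have h4 : exp (-((2 : ℕ) * (N / (b : ℝ) ^ w))) * ((2 : ℕ) * (N / (b : ℝ) ^ w)) ^ 0 /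
        (Nat.factorial 0 : ℕ) = e ^ 2 := by
      rw [he, ← Real.exp_nat_mul]
      simp
    rw [h4] at h3
    exact h3
  have hsm := second_moment P hb1 (by omega : 1 ≤ w) he0 he1 hε'0.le hone htwo
  set q : ℝ := (b : ℝ) ^ w with hq
  have hq0 : 0 < q := by positivity
  have hsm2 : 3 * ε' * q ^ 2 + 5 * q * (w * (b : ℝ) ^ (w / 2)) ≤ 4 * ε' * q ^ 2 := by
    have h6 : (b : ℝ) ^ (w / 2) * (b : ℝ) ^ (w / 2) ≤ q := by
      rw [← pow_add, hq]
      exact pow_le_pow_right₀ (by linarith) (by omega)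
    have h7 := hw0 w hw
    have h8 : (2 : ℝ) ^ (w / 2) ≤ (b : ℝ) ^ (w / 2) := by gcongr
    have h9 : 5 * (w : ℝ) * (b : ℝ) ^ (w / 2) ≤ ε' * q := by
      calc 5 * (w : ℝ) * (b : ℝ) ^ (w / 2) ≤ (ε' * 2 ^ (w / 2)) * (b : ℝ) ^ (w / 2) := by gcongr
        _ ≤ (ε' * (b : ℝ) ^ (w / 2)) * (b : ℝ) ^ (w / 2) := by gcongr
        _ = ε' * ((b : ℝ) ^ (w / 2) * (b : ℝ) ^ (w / 2)) := by ring
        _ ≤ ε' * q := by gcongr
    nlinarith
  refine ⟨{x | (ε * q) ^ 2 ≤ (ms b w N x - q * e) ^ 2}, ?_, ?_, ?_⟩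
  · exact measurableSet_le measurable_const (((measurable_ms b w N).sub_const _).pow_const 2)
  · have hint : Integrable (fun x => (ms b w N x - q * e) ^ 2) P := by
      refine Integrable.of_bound (C := (q + |q * e|) ^ 2)
        (((measurable_ms b w N).sub_const _).pow_const 2).aestronglyMeasurable
        (Eventually.of_forall fun x => ?_)
      rw [Real.norm_eq_abs, abs_pow]
      refine pow_le_pow_left₀ (abs_nonneg _) ?_ 2
      refine (abs_sub _ _).trans ?_
      gcongr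
      have h6 := dw_add_ms hb1 w N x
      have h7 : 0 ≤ ms b w N x := by
        unfold ms
        exact sum_nonneg fun c _ => Set.indicator_nonneg (fun _ _ => zero_le_one) _
      rw [abs_of_nonneg h7]
      have h8 : (0 : ℝ) ≤ dw b w N x := Nat.cast_nonneg _
      linarith
    have hmk := mul_meas_ge_le_integral_of_nonneg (μ := P)
      (f := fun x => (ms b w N x - q * e) ^ 2)
      (Eventually.of_forall fun x => sq_nonneg _) hint ((ε * q) ^ 2)
    have h6 : (ε * q) ^ 2 * P.real {x | (ε * q) ^ 2 ≤ (ms b w N x - q * e) ^ 2} ≤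
        (ε * q) ^ 2 * ρ := by
      calc _ ≤ 4 * ε' * q ^ 2 := hmk.trans (hsm.trans hsm2)
        _ = (ε * q) ^ 2 * ρ := by rw [hε']; ring
    exact le_of_mul_le_mul_left h6 (by positivity)
  · intro x hx
    simp only [Set.mem_ofPred_eq, not_le] at hx
    exact (abs_lt_of_sq_lt_sq hx (by positivity)).le

lemma exp_neg_le {t : ℝ} (ht : 0 ≤ t) : exp (-t) ≤ 1 / (1 + t) := by
  rw [Real.exp_neg, ← one_div]
  refine one_div_le_one_div_of_le (by linarith) ?_
  linarith [Real.add_one_le_exp t]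

theorem c4_of' (h5 : St_C3) : St_C4 := by
  classical
  intro B A S hT ε hε
  obtain ⟨Λn, hΛn⟩ := exists_nat_ge (4 / ε + 4)
  have hΛ4 : (4 : ℝ) ≤ Λn := by
    have : 0 < 4 / ε := by positivity
    linarith
  have hΛε : 1 / (Λn : ℝ) ≤ ε / 4 := by
    have h1 : 4 / ε ≤ Λn := by linarith
    rw [div_le_iff₀ hε] at h1
    rw [div_le_iff₀ (by linarith)]
    linarith
  have hΛ0 : (0 : ℝ) < Λn := by linarith
  set Λ' : ℝ := ((B : ℝ) + 1) * Λn with hΛ'
  have hΛ'0 : 0 < Λ' := by positivity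
  set κ : ℝ := 1 - exp (-(1 / Λ')) with hκ
  have hκ0 : 0 < κ := by
    have : exp (-(1 / Λ')) < 1 := by
      rw [Real.exp_lt_one_iff]
      have : 0 < 1 / Λ' := by positivity
      linarith
    linarith
  set ε₂ : ℝ := min (ε * κ) (min (ε / 4 / Λ') (ε / 4)) with hε₂
  have hε₂0 : 0 < ε₂ := lt_min (by positivity) (lt_min (by positivity) (by positivity))
  have hε₂1 : ε₂ ≤ ε * κ := min_le_left _ _
  have hε₂2 : ε₂ ≤ ε / 4 / Λ' := (min_le_right _ _).trans (min_le_left _ _)
  have hε₂3 : ε₂ ≤ ε / 4 := (min_le_right _ _).trans (min_le_right _ _)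
  set R : ℕ := (B * Λn) ^ 2 + 1 with hR
  have hR0 : (0 : ℝ) < R := by positivity
  obtain ⟨N1, M1, h1⟩ := middle h5 B A S hT hΛ'0 hε₂0 (show 0 < ε / R by positivity)
  refine ⟨max N1 (Λn + 2), max M1 1, fun M hM P hP b N hb2 hbB hN hNA => ?_⟩
  have hM1 : M1 ≤ M := le_trans (le_max_left _ _) hM
  have hM0 : 1 ≤ M := le_trans (le_max_right _ _) hM
  have hN1 : N1 ≤ N := le_trans (le_max_left _ _) hN
  have hN2 : Λn + 2 ≤ N := le_trans (le_max_right _ _) hN
  have : IsProbabilityMeasure P := hT.1 M hM0 P hP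
  have hb1 : 1 ≤ b := by omega
  have hbR : (2 : ℝ) ≤ b := by exact_mod_cast hb2
  have hb0 : (0 : ℝ) < b := by linarith
  have hbBR : (b : ℝ) ≤ B := by exact_mod_cast hbB
  have hΛn4 : 4 ≤ Λn := by exact_mod_cast hΛ4
  have hN0 : (0 : ℝ) < N := by
    have : 0 < N := by omega
    exact_mod_cast this
  -- the two lengths
  set wa : ℕ := Nat.clog b (Λn * N) with hwa
  set wc : ℕ := Nat.log b (N / Λn) with hwc
  have hND : N / Λn ≠ 0 := by
    have : 0 < N / Λn := Nat.div_pos (by omega) (by omega)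
    omega
  have a1 : Λn * N ≤ b ^ wa := Nat.le_pow_clog (by omega) _
  have hΛN : 1 < Λn * N := by nlinarith
  have a2 : b ^ wa ≤ b * (Λn * N) := by
    have h2 := Nat.pow_pred_clog_lt_self (show 1 < b by omega) hΛN
    rw [← hwa] at h2
    have h3 : 1 ≤ wa := by
      by_contra hcon
      have : wa = 0 := by omega
      rw [this, pow_zero] at a1
      omega
    have h4 : b ^ wa = b * b ^ (wa - 1) := by
      rw [← pow_succ']; congr 1; omega
    rw [h4]
    exact Nat.mul_le_mul_left _ (by simpa [Nat.pred_eq_sub_one] using h2.le)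
  have c1 : Λn * b ^ wc ≤ N := by
    have h2 : b ^ wc ≤ N / Λn := Nat.pow_log_le_self b hND
    calc Λn * b ^ wc ≤ Λn * (N / Λn) := Nat.mul_le_mul_left _ h2
      _ ≤ N := Nat.mul_div_le N Λn
  have c2 : N ≤ Λn * (b * b ^ wc) := by
    have h2 : N / Λn < b ^ (wc + 1) := Nat.lt_pow_succ_log_self (by omega) _
    have h3 := Nat.lt_mul_div_succ N (show 0 < Λn by omega)
    calc N ≤ Λn * (N / Λn + 1) := h3.le
      _ ≤ Λn * b ^ (wc + 1) := Nat.mul_le_mul_left _ h2
      _ = Λn * (b * b ^ wc) := by rw [pow_succ']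
  have hca : wc ≤ wa := by
    refine (Nat.pow_le_pow_iff_right (show 1 < b by omega)).1 ?_
    nlinarith
  have a1R : (Λn : ℝ) * N ≤ (b : ℝ) ^ wa := by exact_mod_cast a1
  have a2R : (b : ℝ) ^ wa ≤ b * (Λn * N) := by exact_mod_cast a2
  have c1R : (Λn : ℝ) * (b : ℝ) ^ wc ≤ N := by exact_mod_cast c1
  have c2R : (N : ℝ) ≤ Λn * (b * (b : ℝ) ^ wc) := by exact_mod_cast c2
  have hmid : ∀ w ∈ Icc wc wa, (N : ℝ) ≤ Λ' * (b : ℝ) ^ w ∧ (b : ℝ) ^ w ≤ Λ' * N := by
    intro w hw
    rw [mem_Icc] at hw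
    have h2 : (b : ℝ) ^ wc ≤ (b : ℝ) ^ w := pow_le_pow_right₀ (by linarith) hw.1
    have h3 : (b : ℝ) ^ w ≤ (b : ℝ) ^ wa := pow_le_pow_right₀ (by linarith) hw.2
    have h4 : (b : ℝ) * Λn ≤ Λ' := by
      rw [hΛ']
      gcongr
      linarith
    constructor
    · calc (N : ℝ) ≤ Λn * (b * (b : ℝ) ^ wc) := c2R
        _ = (b * Λn) * (b : ℝ) ^ wc := by ring
        _ ≤ Λ' * (b : ℝ) ^ w := by gcongr
    · calc (b : ℝ) ^ w ≤ b * (Λn * N) := h3.trans a2R
        _ = (b * Λn) * N := by ring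
        _ ≤ Λ' * N := by gcongr
  have hkey : ∀ w ∈ Icc wc wa, ∃ U : Set ℝ, MeasurableSet U ∧ P.real U ≤ ε / R ∧ ∀ x ∉ U,
      |ms b w N x - (b : ℝ) ^ w * exp (-(N / (b : ℝ) ^ w))| ≤ ε₂ * (b : ℝ) ^ w :=
    fun w hw => h1 M hM1 P hP b w N hb2 hbB hN1 hNA (hmid w hw).1 (hmid w hw).2
  choose! U hUm hU hUx using hkey
  have hcard : (Icc wc wa).card ≤ R := by
    rw [Nat.card_Icc]
    have h2 : b ^ wa = b ^ wc * b ^ (wa - wc) := by
      rw [← pow_add]; congr 1; omega
    have h3 : b ^ wc * b ^ (wa - wc) ≤ b ^ wc * (B * Λn) ^ 2 := by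
      rw [← h2]
      calc b ^ wa ≤ b * (Λn * N) := a2
        _ ≤ b * (Λn * (Λn * (b * b ^ wc))) := by gcongr
        _ = b ^ wc * (b * Λn) ^ 2 := by ring
        _ ≤ b ^ wc * (B * Λn) ^ 2 := by gcongr
    have h4 : b ^ (wa - wc) ≤ (B * Λn) ^ 2 := Nat.le_of_mul_le_mul_left h3 (by positivity)
    have h6 : wa - wc < b ^ (wa - wc) := Nat.lt_pow_self (by omega)
    omega
  refine ⟨⋃ w ∈ Icc wc wa, U w, Finset.measurableSet_biUnion _ fun w hw => hUm w hw, ?_, ?_⟩
  · calc P.real (⋃ w ∈ Icc wc wa, U w) ≤ ∑ w ∈ Icc wc wa, P.real (U w) :=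
          measureReal_biUnion_finset_le _ _
      _ ≤ ∑ _w ∈ Icc wc wa, ε / R := sum_le_sum fun w hw => hU w hw
      _ = ((Icc wc wa).card : ℝ) * (ε / R) := by rw [sum_const, nsmul_eq_mul]
      _ ≤ R * (ε / R) := by gcongr
      _ = ε := by field_simp
  · intro x hx w
    have hxw : ∀ v ∈ Icc wc wa, |ms b v N x - (b : ℝ) ^ v * exp (-(N / (b : ℝ) ^ v))| ≤
        ε₂ * (b : ℝ) ^ v := fun v hv => hUx v hv x fun h => hx (Set.mem_biUnion hv h)
    have hdm := dw_add_ms hb1 w N x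
    set q : ℝ := (b : ℝ) ^ w with hq
    have hq0 : 0 < q := by positivity
    set lam : ℝ := N / q with hlam
    have hlam0 : 0 < lam := by positivity
    have hqlam : q * lam = N := by
      rw [hlam]; field_simp
    have hms0 : 0 ≤ ms b w N x := by
      unfold ms
      exact sum_nonneg fun c _ => Set.indicator_nonneg (fun _ _ => zero_le_one) _
    by_cases hwcc : w < wc
    · -- short words
      have e1 := ms_mono hb1 hwcc.le N x
      have e2 := (abs_le.1 (hxw wc (mem_Icc.2 ⟨le_rfl, hca⟩))).2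
      have hbc : (0 : ℝ) < (b : ℝ) ^ wc := by positivity
      have hlc : (Λn : ℝ) ≤ N / (b : ℝ) ^ wc := by
        rw [le_div_iff₀ hbc]; exact c1R
      have hexp : ∀ t : ℝ, (Λn : ℝ) ≤ t → exp (-t) ≤ 1 / Λn := by
        intro t ht
        calc exp (-t) ≤ 1 / (1 + t) := exp_neg_le (by linarith)
          _ ≤ 1 / Λn := one_div_le_one_div_of_le hΛ0 (by linarith)
      have e3 : ms b wc N x ≤ (ε / 4 + ε / 4) * (b : ℝ) ^ wc := by
        have := (hexp _ hlc).trans hΛε
        nlinarith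
      have e4 : ms b w N x ≤ (ε / 2) * q := by
        have e5 : ms b wc N x / (b : ℝ) ^ wc ≤ ε / 2 := by
          rw [div_le_iff₀ hbc]
          linarith
        have e6 := e1.trans e5
        rwa [div_le_iff₀ hq0] at e6
      have e7 : (Λn : ℝ) ≤ lam := by
        refine hlc.trans ?_
        rw [hlam, hq]
        gcongr
        linarith
      have e8 := hexp _ e7
      have e9 : exp (-lam) ≤ 1 / 4 := by
        refine e8.trans ?_
        exact one_div_le_one_div_of_le (by norm_num) hΛ4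
      have e10 : exp (-lam) ≤ ε / 4 := e8.trans hΛε
      have e11 : 0 < exp (-lam) := Real.exp_pos _
      have e12 : (dw b w N x : ℝ) - q * (1 - exp (-lam)) = q * exp (-lam) - ms b w N x := by
        linarith
      rw [e12, abs_le]
      constructor <;> nlinarith
    by_cases hwaa : wa < w
    · -- long words
      have hbA : (0 : ℝ) < (b : ℝ) ^ wa := by positivity
      have e1 : (dw b wa N x : ℝ) ≤ dw b w N x := by exact_mod_cast dw_mono hb1 hwaa.le N x
      have e2 : (dw b w N x : ℝ) ≤ N := by exact_mod_cast dw_le_N b w N x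
      have e3 := (abs_le.1 (hxw wa (mem_Icc.2 ⟨hca, le_rfl⟩))).2
      have e4 := dw_add_ms hb1 wa N x
      have hT : ∀ v : ℕ, wa ≤ v → (N : ℝ) * (1 - ε / 4) ≤
          (b : ℝ) ^ v * (1 - exp (-(N / (b : ℝ) ^ v))) ∧
          (N : ℝ) / 2 ≤ (b : ℝ) ^ v * (1 - exp (-(N / (b : ℝ) ^ v))) := by
        intro v hv
        have hbv : (0 : ℝ) < (b : ℝ) ^ v := by positivity
        set t : ℝ := N / (b : ℝ) ^ v with ht
        have ht0 : 0 < t := by positivity
        have htv : (b : ℝ) ^ v * t = N := by rw [ht]; field_simp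
        have ht1 : t ≤ 1 / Λn := by
          rw [ht, div_le_div_iff₀ hbv hΛ0]
          have : (b : ℝ) ^ wa ≤ (b : ℝ) ^ v := pow_le_pow_right₀ (by linarith) hv
          linarith
        have h6 := exp_neg_le ht0.le
        have h7 : t * (1 - t) ≤ 1 - exp (-t) := by
          have h8 : 1 / (1 + t) ≤ 1 - t + t ^ 2 := by
            rw [div_le_iff₀ (by linarith)]
            have h9 : 0 < t ^ 3 := by positivity
            nlinarith
          nlinarith
        have h8 : (N : ℝ) * (1 - t) ≤ (b : ℝ) ^ v * (1 - exp (-t)) := by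
          calc (N : ℝ) * (1 - t) = (b : ℝ) ^ v * (t * (1 - t)) := by rw [← htv]; ring
            _ ≤ _ := by gcongr
        have h9 : t ≤ 1 / 2 := by
          refine ht1.trans ?_
          exact one_div_le_one_div_of_le (by norm_num) (by linarith)
        constructor
        · refine le_trans ?_ h8
          gcongr
          exact ht1.trans hΛε
        · refine le_trans ?_ h8
          nlinarith
      have e5 := (hT wa le_rfl).1
      have e6 := (hT w hwaa.le).1
      have e7 := (hT w hwaa.le).2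
      have e8 : q * (1 - exp (-lam)) ≤ N := by
        have h6 : 1 - lam ≤ exp (-lam) := Real.one_sub_le_exp_neg lam
        rw [← hqlam]
        gcongr
        linarith
      have e9 : ε₂ * (b : ℝ) ^ wa ≤ (ε / 4) * N := by
        calc ε₂ * (b : ℝ) ^ wa ≤ (ε / 4 / Λ') * (Λ' * N) := by
              gcongr
              exact (hmid wa (mem_Icc.2 ⟨hca, le_rfl⟩)).2
          _ = (ε / 4) * N := by field_simp
      have e10 : (N : ℝ) * (1 - ε / 2) ≤ dw b w N x := by nlinarith
      rw [abs_le]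
      constructor <;> nlinarith
    · -- the middle
      have hw : w ∈ Icc wc wa := mem_Icc.2 ⟨by omega, by omega⟩
      have e1 := hxw w hw
      have e2 := (hmid w hw).2
      have e3 : 1 / Λ' ≤ lam := by
        rw [hlam, div_le_div_iff₀ hΛ'0 hq0]
        linarith
      have e4 : κ ≤ 1 - exp (-lam) := by
        have : exp (-lam) ≤ exp (-(1 / Λ')) := Real.exp_le_exp.2 (by linarith)
        linarith
      have e5 : (dw b w N x : ℝ) - q * (1 - exp (-lam)) = -(ms b w N x - q * exp (-lam)) := by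
        linarith
      rw [e5, abs_neg]
      calc |ms b w N x - q * exp (-lam)| ≤ ε₂ * q := e1
        _ ≤ (ε * κ) * q := by gcongr
        _ ≤ (ε * (1 - exp (-lam))) * q := by gcongr
        _ = ε * (q * (1 - exp (-lam))) := by ring

theorem c4_of (_h1 : St_TR) (_h3 : St_L3) (h5 : St_C3) : St_C4 := c4_of' h5

end Pool.Agent.N407.FS
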