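import Pool.Agent.N639.FS.Stm

/-!
# Project FS: elementary facts on occurrences of words (helper407)
-/

set_option autoImplicit false

namespace Pool.Agent.N407.FS

open Finset Real MeasureTheory Filter Topology Pool.Agent.Y933.KD Pool.Agent.N639.FS

/-- the beginning of a word -/
lemma wd_prefix {b : ℕ} (hb : 1 ≤ b) {w0 w : ℕ} (h : w0 ≤ w) (n : ℕ) (x : ℝ) :
    wd b w0 n x = wd b w n x / b ^ (w - w0) := by
  unfold wd
  rw [← Nat.floor_div_natCast]
  congr 1
  have hb' : (0 : ℝ) < b := by exact_mod_cast hb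
  have h1 : (b : ℝ) ^ w = (b : ℝ) ^ w0 * (b : ℝ) ^ (w - w0) := by
    rw [← pow_add]; congr 1; omega
  push_cast
  rw [h1]
  have : (b : ℝ) ^ (w - w0) ≠ 0 := by positivity
  field_simp

lemma cnd_nonneg (b w n c : ℕ) (x : ℝ) : 0 ≤ cnd b w n c x := by
  unfold cnd; split_ifs <;> norm_num

lemma cnd_le_one (b w n c : ℕ) (x : ℝ) : cnd b w n c x ≤ 1 := by
  unfold cnd; split_ifs <;> norm_num

lemma measurable_cnd (b w n c : ℕ) : Measurable (cnd b w n c) :=
  (measurable_of_countable (fun v : ℕ => if v = c then (1 : ℝ) else 0)).comp (measurable_wd b w n)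

lemma measurable_occ (b w N c : ℕ) : Measurable (occ b w N c) := by
  unfold occ
  exact Finset.measurable_fun_sum _ fun n _ => measurable_cnd _ _ _ _

lemma occ_nonneg (b w N c : ℕ) (x : ℝ) : 0 ≤ occ b w N c x :=
  sum_nonneg fun n _ => cnd_nonneg _ _ _ _ _

lemma occ_le (b w N c : ℕ) (x : ℝ) : occ b w N c x ≤ N := by
  unfold occ
  calc ∑ n ∈ range N, cnd b w n c x ≤ ∑ _n ∈ range N, (1 : ℝ) :=
        sum_le_sum fun n _ => cnd_le_one _ _ _ _ _
    _ = N := by simp

lemma occ_mono (b w c : ℕ) (x : ℝ) {N N' : ℕ} (h : N ≤ N') : occ b w N c x ≤ occ b w N' c x := by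
  unfold occ
  exact sum_le_sum_of_subset_of_nonneg (range_subset_range.2 h) fun n _ _ => cnd_nonneg _ _ _ _ _

lemma occ_add_le (b w c : ℕ) (x : ℝ) {N N' d : ℕ} (h : N' ≤ N + d) :
    occ b w N' c x ≤ occ b w N c x + d := by
  refine (occ_mono b w c x h).trans ?_
  unfold occ
  rw [sum_range_add]
  gcongr
  calc ∑ i ∈ range d, cnd b w (N + i) c x ≤ ∑ _i ∈ range d, (1 : ℝ) :=
        sum_le_sum fun n _ => cnd_le_one _ _ _ _ _
    _ = d := by simp

/-- a word occurs at most as often as its beginning -/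
lemma occ_prefix {b : ℕ} (hb : 1 ≤ b) {w0 w : ℕ} (h : w0 ≤ w) (N c : ℕ) (x : ℝ) :
    occ b w N c x ≤ occ b w0 N (c / b ^ (w - w0)) x := by
  unfold occ
  refine sum_le_sum fun n _ => ?_
  unfold cnd
  by_cases hc : wd b w n x = c
  · rw [if_pos hc, if_pos]
    rw [wd_prefix hb h, hc]
  · rw [if_neg hc]
    split_ifs <;> norm_num

lemma wd_zero {b : ℕ} (hb : 1 ≤ b) (n : ℕ) (x : ℝ) : wd b 0 n x = 0 := by
  have := wd_lt hb 0 n x
  rw [pow_zero] at this
  omega

lemma occ_zero {b : ℕ} (hb : 1 ≤ b) (N : ℕ) (x : ℝ) : occ b 0 N 0 x = N := by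
  unfold occ cnd
  simp [wd_zero hb]

/-- powers of the centred number of occurrences -/
lemma occ_pow (b w N c k : ℕ) (x : ℝ) :
    (occ b w N c x - (N : ℕ) / (b : ℝ) ^ w) ^ k =
      ∑ n ∈ Fintype.piFinset (fun _ : Fin k => range N),
        ∏ i, ((if wd b w (n i) x = c then (1 : ℝ) else 0) - 1 / (b : ℝ) ^ w) := by
  have h1 : occ b w N c x - (N : ℕ) / (b : ℝ) ^ w =
      ∑ n ∈ range N, ((if wd b w n x = c then (1 : ℝ) else 0) - 1 / (b : ℝ) ^ w) := by
    rw [sum_sub_distrib, sum_const, card_range, nsmul_eq_mul]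
    unfold occ cnd
    ring
  rw [h1]
  have h2 := Finset.prod_univ_sum (fun _ : Fin k => range N)
    (fun (_ : Fin k) (n : ℕ) => ((if wd b w n x = c then (1 : ℝ) else 0) - 1 / (b : ℝ) ^ w))
  rw [← h2, prod_const, card_univ, Fintype.card_fin]

end Pool.Agent.N407.FS
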